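import Mathlib

/-!
# Degree 3 spanning trees of lattice sets: rooted trees and gluing

A rooted tree on a finite set `C` of lattice points is given by a parent function and a rank
function. `Good U D C v c f`: there is a rooted tree on `C` with root `v`, all steps in `U` or `D`,
at most two children everywhere, at most `c` children at the root, at most `f` steps outside `U`.
-/

set_option autoImplicit false

namespace MP_675adf_co_LT

/-- The children of `x`. -/
def chl (C : Finset (ℤ × ℤ)) (v : ℤ × ℤ) (par : ℤ × ℤ → ℤ × ℤ) (x : ℤ × ℤ) :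
    Finset (ℤ × ℤ) :=
  C.filter fun w => w ≠ v ∧ par w = x

/-- The vertices whose step to the parent is long. -/
def lng (U C : Finset (ℤ × ℤ)) (v : ℤ × ℤ) (par : ℤ × ℤ → ℤ × ℤ) : Finset (ℤ × ℤ) :=
  C.filter fun w => w ≠ v ∧ w - par w ∉ U

/-- A rooted tree on `C`. -/
structure Tr (U D C : Finset (ℤ × ℤ)) (v : ℤ × ℤ) (par : ℤ × ℤ → ℤ × ℤ) (rk : ℤ × ℤ → ℕ) :
    Prop where
  mem : v ∈ C
  par_mem : ∀ w ∈ C, w ≠ v → par w ∈ C
  rk_lt : ∀ w ∈ C, w ≠ v → rk (par w) < rk w
  step : ∀ w ∈ C, w ≠ v → w - par w ∈ U ∨ w - par w ∈ D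

/-- There is a good rooted tree. -/
def Good (U D C : Finset (ℤ × ℤ)) (v : ℤ × ℤ) (c f : ℕ) : Prop :=
  ∃ par rk, Tr U D C v par rk ∧ (∀ x, (chl C v par x).card ≤ 2) ∧ (chl C v par v).card ≤ c ∧
    (lng U C v par).card ≤ f

theorem Good.single {U D : Finset (ℤ × ℤ)} (v : ℤ × ℤ) : Good U D {v} v 0 0 := by
  refine ⟨fun _ => v, fun _ => 0, ⟨by simp, ?_, ?_, ?_⟩, ?_, ?_, ?_⟩
  · intro w _ _
    simp
  · intro w hw h
    exact absurd (Finset.mem_singleton.1 hw) h
  · intro w hw h
    exact absurd (Finset.mem_singleton.1 hw) h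
  · intro x
    have : chl {v} v (fun _ => v) x = ∅ := by
      ext w
      simp only [chl, Finset.mem_filter, Finset.mem_singleton, Finset.notMem_empty, iff_false]
      rintro ⟨h1, h2, -⟩
      exact h2 h1
    rw [this]
    simp
  · have : chl {v} v (fun _ => v) v = ∅ := by
      ext w
      simp only [chl, Finset.mem_filter, Finset.mem_singleton, Finset.notMem_empty, iff_false]
      rintro ⟨h1, h2, -⟩
      exact h2 h1
    rw [this]
    simp
  · have : lng U {v} v (fun _ => v) = ∅ := by
      ext w
      simp only [lng, Finset.mem_filter, Finset.mem_singleton, Finset.notMem_empty, iff_false]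
      rintro ⟨h1, h2, -⟩
      exact h2 h1
    rw [this]
    simp

theorem Good.mono {U D C : Finset (ℤ × ℤ)} {v : ℤ × ℤ} {c c' f f' : ℕ}
    (h : Good U D C v c f) (hc : c ≤ c') (hf : f ≤ f') : Good U D C v c' f' := by
  obtain ⟨par, rk, t, h1, h2, h3⟩ := h
  exact ⟨par, rk, t, h1, h2.trans hc, h3.trans hf⟩

/-- Gluing at the root. -/
theorem Good.attach {U D C K : Finset (ℤ × ℤ)} {v k : ℤ × ℤ} {c c' f f' e : ℕ}
    (h : Good U D C v c f) (h' : Good U D K k c' f') (hd : Disjoint C K) (hc : c ≤ 1)
    (he : k - v ∈ U ∨ (k - v ∈ D ∧ 1 ≤ e)) : Good U D (C ∪ K) v (c + 1) (f + f' + e) := by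
  classical
  obtain ⟨par, rk, t, h1, h2, h3⟩ := h
  obtain ⟨par', rk', t', h1', h2', h3'⟩ := h'
  have hdis : ∀ a, a ∈ C → a ∈ K → False := fun a ha hb => Finset.disjoint_left.1 hd ha hb
  have hvC := t.mem
  have hkK := t'.mem
  have hkC : k ∉ C := fun h => hdis k h hkK
  have hvK : v ∉ K := fun h => hdis v hvC h
  obtain ⟨P, hP⟩ : ∃ P : ℤ × ℤ → ℤ × ℤ,
    P = fun w => if w ∈ C then par w else if w = k then v else par' w := ⟨_, rfl⟩
  obtain ⟨R, hR⟩ : ∃ R : ℤ × ℤ → ℕ,
    R = fun w => if w ∈ C then rk w else rk v + 1 + rk' w := ⟨_, rfl⟩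
  have P1 : ∀ w ∈ C, P w = par w := fun w hw => by rw [hP]; exact if_pos hw
  have P2 : P k = v := by rw [hP]; simp [hkC]
  have P3 : ∀ w ∈ K, w ≠ k → P w = par' w := fun w hw hk => by
    rw [hP]
    have : w ∉ C := fun h => hdis w h hw
    simp [this, hk]
  have R1 : ∀ w ∈ C, R w = rk w := fun w hw => by rw [hR]; exact if_pos hw
  have R2 : ∀ w ∈ K, R w = rk v + 1 + rk' w := fun w hw => by
    rw [hR]
    have : w ∉ C := fun h => hdis w h hw
    simp [this]
  have hch : ∀ x, chl (C ∪ K) v P x ⊆ (if x ∈ C then chl C v par x else ∅) ∪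
      ((if x ∈ K then chl K k par' x else ∅) ∪ (if x = v then {k} else ∅)) := by
    intro x w hw
    simp only [chl, Finset.mem_filter, Finset.mem_union] at hw
    obtain ⟨h4, h5, h6⟩ := hw
    rcases h4 with h4 | h4
    · rw [P1 w h4] at h6
      have hx : x ∈ C := h6 ▸ t.par_mem w h4 h5
      rw [if_pos hx]
      exact Finset.mem_union_left _ (Finset.mem_filter.2 ⟨h4, h5, h6⟩)
    · by_cases hk : w = k
      · rw [hk, P2] at h6
        rw [if_pos h6.symm, hk]
        exact Finset.mem_union_right _ (Finset.mem_union_right _ (Finset.mem_singleton_self k))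
      · rw [P3 w h4 hk] at h6
        have hx : x ∈ K := h6 ▸ t'.par_mem w h4 hk
        rw [if_pos hx]
        exact Finset.mem_union_right _ (Finset.mem_union_left _
          (Finset.mem_filter.2 ⟨h4, hk, h6⟩))
  refine ⟨P, R, ⟨Finset.mem_union_left _ hvC, ?_, ?_, ?_⟩, ?_, ?_, ?_⟩
  · intro w hw hwv
    rcases Finset.mem_union.1 hw with h4 | h4
    · rw [P1 w h4]
      exact Finset.mem_union_left _ (t.par_mem w h4 hwv)
    · by_cases hk : w = k
      · rw [hk, P2]
        exact Finset.mem_union_left _ hvC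
      · rw [P3 w h4 hk]
        exact Finset.mem_union_right _ (t'.par_mem w h4 hk)
  · intro w hw hwv
    rcases Finset.mem_union.1 hw with h4 | h4
    · rw [P1 w h4, R1 w h4, R1 _ (t.par_mem w h4 hwv)]
      exact t.rk_lt w h4 hwv
    · by_cases hk : w = k
      · rw [hk, P2, R1 v hvC, R2 k hkK]
        omega
      · rw [P3 w h4 hk, R2 w h4, R2 _ (t'.par_mem w h4 hk)]
        have := t'.rk_lt w h4 hk
        omega
  · intro w hw hwv
    rcases Finset.mem_union.1 hw with h4 | h4
    · rw [P1 w h4]
      exact t.step w h4 hwv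
    · by_cases hk : w = k
      · rw [hk, P2]
        rcases he with he | he
        · exact Or.inl he
        · exact Or.inr he.1
      · rw [P3 w h4 hk]
        exact t'.step w h4 hk
  · intro x
    by_cases hxv : x = v
    · refine (Finset.card_le_card (hch x)).trans ?_
      rw [hxv, if_pos hvC, if_neg hvK, if_pos rfl, Finset.empty_union]
      refine (Finset.card_union_le _ _).trans ?_
      rw [Finset.card_singleton]
      omega
    · refine (Finset.card_le_card (hch x)).trans ?_
      rw [if_neg hxv, Finset.union_empty]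
      by_cases hxC : x ∈ C
      · rw [if_pos hxC, if_neg fun h => hdis x hxC h, Finset.union_empty]
        exact h1 x
      · rw [if_neg hxC, Finset.empty_union]
        split_ifs
        · exact h1' x
        · simp
  · refine (Finset.card_le_card (hch v)).trans ?_
    rw [if_pos hvC, if_neg hvK, if_pos rfl, Finset.empty_union]
    refine (Finset.card_union_le _ _).trans ?_
    rw [Finset.card_singleton]
    omega
  · have h4 : lng U (C ∪ K) v P ⊆ lng U C v par ∪ (lng U K k par' ∪
        (if k - v ∈ U then ∅ else {k})) := by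
      intro w hw
      simp only [lng, Finset.mem_filter, Finset.mem_union] at hw
      obtain ⟨h4, h5, h6⟩ := hw
      rcases h4 with h4 | h4
      · rw [P1 w h4] at h6
        exact Finset.mem_union_left _ (Finset.mem_filter.2 ⟨h4, h5, h6⟩)
      · by_cases hk : w = k
        · rw [hk, P2] at h6
          rw [if_neg h6, hk]
          exact Finset.mem_union_right _ (Finset.mem_union_right _
            (Finset.mem_singleton_self k))
        · rw [P3 w h4 hk] at h6
          exact Finset.mem_union_right _ (Finset.mem_union_left _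
            (Finset.mem_filter.2 ⟨h4, hk, h6⟩))
    refine (Finset.card_le_card h4).trans ((Finset.card_union_le _ _).trans ?_)
    have h5 := Finset.card_union_le (lng U K k par') (if k - v ∈ U then ∅ else {k})
    have h6 : (if k - v ∈ U then (∅ : Finset (ℤ × ℤ)) else {k}).card ≤ e := by
      rcases he with he | he
      · rw [if_pos he]
        simp
      · split_ifs
        · simp
        · rw [Finset.card_singleton]
          exact he.2
    omega

end MP_675adf_co_LT
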