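import Mathlib

/-!
# Components of finite lattice sets
-/

set_option autoImplicit false

namespace MP_675adf_co_LT

/-- One step inside `S`. -/
def Rl (U S : Finset (ℤ × ℤ)) (a b : ℤ × ℤ) : Prop := a ∈ S ∧ b ∈ S ∧ b - a ∈ U

open Classical in
/-- The component of `k` in `S`. -/
noncomputable def cmp (U S : Finset (ℤ × ℤ)) (k : ℤ × ℤ) : Finset (ℤ × ℤ) :=
  S.filter fun w => Relation.ReflTransGen (Rl U S) k w

/-- `C` is connected by steps in `U`. -/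
def Con (U C : Finset (ℤ × ℤ)) : Prop :=
  ∀ a ∈ C, ∀ b ∈ C, Relation.ReflTransGen (Rl U C) a b

theorem mem_cmp {U S : Finset (ℤ × ℤ)} {k w : ℤ × ℤ} :
    w ∈ cmp U S k ↔ w ∈ S ∧ Relation.ReflTransGen (Rl U S) k w := by
  classical
  unfold cmp
  rw [Finset.mem_filter]

theorem cmp_sub {U S : Finset (ℤ × ℤ)} {k : ℤ × ℤ} : cmp U S k ⊆ S := fun _ hw =>
  (mem_cmp.1 hw).1

theorem self_mem {U S : Finset (ℤ × ℤ)} {k : ℤ × ℤ} (hk : k ∈ S) : k ∈ cmp U S k :=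
  mem_cmp.2 ⟨hk, Relation.ReflTransGen.refl⟩

theorem cmp_adj {U S : Finset (ℤ × ℤ)} {k a b : ℤ × ℤ} (ha : a ∈ cmp U S k) (hb : b ∈ S)
    (h : b - a ∈ U) : b ∈ cmp U S k := by
  have h1 := mem_cmp.1 ha
  exact mem_cmp.2 ⟨hb, h1.2.tail ⟨h1.1, hb, h⟩⟩

theorem Rl.symm {U S : Finset (ℤ × ℤ)} (hU : ∀ d ∈ U, -d ∈ U) {a b : ℤ × ℤ}
    (h : Rl U S a b) : Rl U S b a := by
  refine ⟨h.2.1, h.1, ?_⟩
  have := hU _ h.2.2
  rwa [neg_sub] at this

theorem rev {U S : Finset (ℤ × ℤ)} (hU : ∀ d ∈ U, -d ∈ U) {a b : ℤ × ℤ}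
    (h : Relation.ReflTransGen (Rl U S) a b) : Relation.ReflTransGen (Rl U S) b a := by
  induction h with
  | refl => exact Relation.ReflTransGen.refl
  | tail _ h3 ih => exact Relation.ReflTransGen.head (h3.symm hU) ih

theorem con_cmp {U S : Finset (ℤ × ℤ)} (hU : ∀ d ∈ U, -d ∈ U) {k : ℤ × ℤ} :
    Con U (cmp U S k) := by
  have h1 : ∀ w, Relation.ReflTransGen (Rl U S) k w →
      Relation.ReflTransGen (Rl U (cmp U S k)) k w := by
    intro w h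
    induction h with
    | refl => exact Relation.ReflTransGen.refl
    | tail h2 h3 ih =>
      refine ih.tail ⟨mem_cmp.2 ⟨h3.1, h2⟩, mem_cmp.2 ⟨h3.2.1, h2.tail h3⟩, h3.2.2⟩
  intro a ha b hb
  have ha' := h1 a (mem_cmp.1 ha).2
  have hb' := h1 b (mem_cmp.1 hb).2
  exact (rev hU ha').trans hb'

theorem cmp_disj {U S : Finset (ℤ × ℤ)} (hU : ∀ d ∈ U, -d ∈ U) {k k' : ℤ × ℤ} (hk' : k' ∈ S)
    (h : k' ∉ cmp U S k) : Disjoint (cmp U S k) (cmp U S k') := by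
  rw [Finset.disjoint_left]
  intro w hw hw'
  refine h (mem_cmp.2 ⟨hk', ?_⟩)
  exact (mem_cmp.1 hw).2.trans
    (rev hU (mem_cmp.1 hw').2)

theorem cover {U C : Finset (ℤ × ℤ)} (hC : Con U C) {v : ℤ × ℤ} (hv : v ∈ C)
    {w : ℤ × ℤ} (hw : w ∈ C) (hwv : w ≠ v) :
    ∃ k ∈ C.erase v, k - v ∈ U ∧ w ∈ cmp U (C.erase v) k := by
  have h := hC v hv w hw
  have h1 : ∀ w, Relation.ReflTransGen (Rl U C) v w → w ≠ v →
      ∃ k ∈ C.erase v, k - v ∈ U ∧ w ∈ cmp U (C.erase v) k := by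
    intro w h
    induction h with
    | refl => exact fun h => absurd rfl h
    | @tail x y h2 h3 ih =>
      intro hy
      have hy' : y ∈ C.erase v := Finset.mem_erase.2 ⟨hy, h3.2.1⟩
      by_cases hx : x = v
      · exact ⟨y, hy', hx ▸ h3.2.2, self_mem hy'⟩
      · obtain ⟨k, hk, hk1, hk2⟩ := ih hx
        exact ⟨k, hk, hk1, cmp_adj hk2 hy' h3.2.2⟩
  exact h1 w h hwv

theorem cmp_card_lt {U C : Finset (ℤ × ℤ)} {v k : ℤ × ℤ} (hv : v ∈ C) :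
    (cmp U (C.erase v) k).card < C.card :=
  (Finset.card_le_card cmp_sub).trans_lt (Finset.card_erase_lt_of_mem hv)

theorem cmp_trans {U S : Finset (ℤ × ℤ)} {a b c : ℤ × ℤ} (h : b ∈ cmp U S a)
    (h' : c ∈ cmp U S b) : c ∈ cmp U S a :=
  mem_cmp.2 ⟨(mem_cmp.1 h').1, (mem_cmp.1 h).2.trans (mem_cmp.1 h').2⟩

theorem cmp_symm {U S : Finset (ℤ × ℤ)} (hU : ∀ d ∈ U, -d ∈ U) {a b : ℤ × ℤ} (ha : a ∈ S)
    (h : b ∈ cmp U S a) : a ∈ cmp U S b :=
  mem_cmp.2 ⟨ha, rev hU (mem_cmp.1 h).2⟩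

theorem build0 {U C : Finset (ℤ × ℤ)} (hC : Con U C) {v : ℤ × ℤ} (hv : v ∈ C)
    (h : ∀ k ∈ C.erase v, k - v ∈ U → False) : C = {v} := by
  ext w
  rw [Finset.mem_singleton]
  constructor
  · intro hw
    by_contra hwv
    obtain ⟨k, hk, hk1, -⟩ := cover hC hv hw hwv
    exact h k hk hk1
  · rintro rfl
    exact hv

theorem build1 {U C : Finset (ℤ × ℤ)} (hC : Con U C) {v k1 : ℤ × ℤ} (hv : v ∈ C)
    (h : ∀ k ∈ C.erase v, k - v ∈ U → k ∈ cmp U (C.erase v) k1) :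
    C = {v} ∪ cmp U (C.erase v) k1 := by
  ext w
  rw [Finset.mem_union, Finset.mem_singleton]
  constructor
  · intro hw
    by_cases hwv : w = v
    · exact Or.inl hwv
    · obtain ⟨k, hk, hk1, hk2⟩ := cover hC hv hw hwv
      exact Or.inr (cmp_trans (h k hk hk1) hk2)
  · rintro (rfl | hw)
    · exact hv
    · exact Finset.mem_of_mem_erase (cmp_sub hw)

theorem build2 {U C : Finset (ℤ × ℤ)} (hC : Con U C) {v k1 k2 : ℤ × ℤ} (hv : v ∈ C)
    (h : ∀ k ∈ C.erase v, k - v ∈ U → k ∈ cmp U (C.erase v) k1 ∨ k ∈ cmp U (C.erase v) k2) :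
    C = {v} ∪ cmp U (C.erase v) k1 ∪ cmp U (C.erase v) k2 := by
  ext w
  rw [Finset.mem_union, Finset.mem_union, Finset.mem_singleton]
  constructor
  · intro hw
    by_cases hwv : w = v
    · exact Or.inl (Or.inl hwv)
    · obtain ⟨k, hk, hk1, hk2⟩ := cover hC hv hw hwv
      rcases h k hk hk1 with h1 | h1
      · exact Or.inl (Or.inr (cmp_trans h1 hk2))
      · exact Or.inr (cmp_trans h1 hk2)
  · rintro ((rfl | hw) | hw)
    · exact hv
    · exact Finset.mem_of_mem_erase (cmp_sub hw)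
    · exact Finset.mem_of_mem_erase (cmp_sub hw)

theorem build3 {U C : Finset (ℤ × ℤ)} (hC : Con U C) {v k1 k2 k3 : ℤ × ℤ} (hv : v ∈ C)
    (h : ∀ k ∈ C.erase v, k - v ∈ U → k ∈ cmp U (C.erase v) k1 ∨ k ∈ cmp U (C.erase v) k2 ∨
      k ∈ cmp U (C.erase v) k3) :
    C = {v} ∪ (cmp U (C.erase v) k1 ∪ cmp U (C.erase v) k2) ∪ cmp U (C.erase v) k3 := by
  ext w
  rw [Finset.mem_union, Finset.mem_union, Finset.mem_union, Finset.mem_singleton]
  constructor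
  · intro hw
    by_cases hwv : w = v
    · exact Or.inl (Or.inl hwv)
    · obtain ⟨k, hk, hk1, hk2⟩ := cover hC hv hw hwv
      rcases h k hk hk1 with h1 | h1 | h1
      · exact Or.inl (Or.inr (Or.inl (cmp_trans h1 hk2)))
      · exact Or.inl (Or.inr (Or.inr (cmp_trans h1 hk2)))
      · exact Or.inr (cmp_trans h1 hk2)
  · rintro ((rfl | hw | hw) | hw)
    · exact hv
    · exact Finset.mem_of_mem_erase (cmp_sub hw)
    · exact Finset.mem_of_mem_erase (cmp_sub hw)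
    · exact Finset.mem_of_mem_erase (cmp_sub hw)

theorem v_disj {U C : Finset (ℤ × ℤ)} {v k : ℤ × ℤ} :
    Disjoint ({v} : Finset (ℤ × ℤ)) (cmp U (C.erase v) k) := by
  rw [Finset.disjoint_singleton_left]
  intro h
  exact (Finset.mem_erase.1 (cmp_sub h)).1 rfl

end MP_675adf_co_LT
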