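import Pool.Agent.Lib.MP_675adf_co_LT.Base
import Pool.Agent.Lib.MP_675adf_co_LT.Comp

/-!
# The induction for the triangular grid
-/

set_option autoImplicit false

namespace MP_675adf_co_LT

/-- The six unit steps. -/
def U6 : Finset (ℤ × ℤ) := {(1, 0), (0, 1), (-1, 1), (-1, 0), (0, -1), (1, -1)}

/-- Rotation by 60 degrees. -/
def rt (d : ℤ × ℤ) : ℤ × ℤ := (-d.2, d.1 + d.2)

theorem U6_symm : ∀ d ∈ U6, -d ∈ U6 := by decide

theorem U6_zero : ∀ d ∈ U6, d ≠ 0 := by decide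

theorem U6_all : ∀ d ∈ U6, ∀ e ∈ U6, e = d ∨ e = rt d ∨ e = rt (rt d) ∨ e = -d ∨ e = -rt d ∨
    e = -rt (rt d) := by decide

theorem U6_fac : ∀ d ∈ U6, rt d ∈ U6 ∧ rt (rt d) ∈ U6 ∧ -d ∈ U6 ∧ -rt d ∈ U6 ∧
    -rt (rt d) ∈ U6 ∧ -d - rt (rt d) ∈ U6 ∧ -rt d - -d ∈ U6 ∧ -rt (rt d) - -rt d ∈ U6 ∧
    rt (rt d) - rt (rt (rt d)) = rt d ∧ -d - rt (-d) = rt (rt d) ∧
    -rt d - rt (-rt d) = -d ∧ -rt (rt d) - rt (-rt (rt d)) = -rt d := by decide

theorem rt_neg (d : ℤ × ℤ) : rt (-d) = -rt d := by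
  unfold rt
  ext
  · simp
  · simp only [Prod.snd_neg, Prod.fst_neg]
    ring

/-- Gluing at most two components. -/
theorem hex_two {C : Finset (ℤ × ℤ)} (hC : Con U6 C) {v : ℤ × ℤ} (hv : v ∈ C)
    {x y : ℤ × ℤ} (hx : x ∈ U6) (hy : y ∈ U6) (hyC : v + y ∈ C)
    (gx : Good U6 ∅ (cmp U6 (C.erase v) (v + x)) (v + x) 2 0)
    (gy : v + y ∉ cmp U6 (C.erase v) (v + x) →
      Good U6 ∅ (cmp U6 (C.erase v) (v + y)) (v + y) 2 0)
    (h : ∀ d ∈ U6, v + d ∈ C → v + d ∈ cmp U6 (C.erase v) (v + x) ∨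
      v + d ∈ cmp U6 (C.erase v) (v + y)) : Good U6 ∅ C v 2 0 := by
  have hnbk : ∀ k ∈ C.erase v, k - v ∈ U6 → k ∈ cmp U6 (C.erase v) (v + x) ∨
      k ∈ cmp U6 (C.erase v) (v + y) := by
    intro k hk hkv
    have h1 := h (k - v) hkv
    rw [add_sub_cancel] at h1
    exact h1 (Finset.mem_of_mem_erase hk)
  have g1 := (Good.single (U := U6) (D := ∅) v).attach (e := 0) gx v_disj (by omega)
    (Or.inl (by rw [add_sub_cancel_left]; exact hx))
  by_cases hyx : v + y ∈ cmp U6 (C.erase v) (v + x)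
  · have hCe : C = {v} ∪ cmp U6 (C.erase v) (v + x) := by
      refine build1 hC hv fun k hk hkv => ?_
      rcases hnbk k hk hkv with h1 | h1
      · exact h1
      · exact cmp_trans hyx h1
    rw [← hCe] at g1
    exact g1.mono (by omega) le_rfl
  · have hye : v + y ∈ C.erase v := Finset.mem_erase.2
      ⟨fun h => U6_zero y hy (by simpa using h), hyC⟩
    have hdis := cmp_disj U6_symm hye hyx
    have hCe := build2 hC hv hnbk
    have g2 := g1.attach (e := 0) (gy hyx)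
      (Finset.disjoint_union_left.2 ⟨v_disj, hdis⟩) (by omega)
      (Or.inl (by rw [add_sub_cancel_left]; exact hy))
    rw [← hCe] at g2
    exact g2.mono (by omega) le_rfl

theorem hex_main : ∀ n : ℕ, ∀ C : Finset (ℤ × ℤ), C.card ≤ n → Con U6 C → ∀ v ∈ C,
    (∃ d ∈ U6, v + d ∉ C ∧ v + rt d ∉ C) → Good U6 ∅ C v 2 0 := by
  intro n
  induction n with
  | zero =>
    intro C hC _ v hv _
    have : C.card = 0 := by omega
    rw [Finset.card_eq_zero] at this
    rw [this] at hv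
    exact absurd hv (Finset.notMem_empty v)
  | succ n ih =>
    intro C hCn hC v hv ⟨d, hd, hd0, hd1⟩
    obtain ⟨K, hK⟩ : ∃ K : ℤ × ℤ → Finset (ℤ × ℤ), K = fun d => cmp U6 (C.erase v) (v + d) :=
      ⟨_, rfl⟩
    have hKe : ∀ d, K d = cmp U6 (C.erase v) (v + d) := fun d => by rw [hK]
    have hmem : ∀ d ∈ U6, v + d ∈ C → v + d ∈ C.erase v := fun d hd h =>
      Finset.mem_erase.2 ⟨fun h => U6_zero d hd (by simpa using h), h⟩
    have hself : ∀ d ∈ U6, v + d ∈ C → v + d ∈ K d := fun d hd h => by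
      rw [hKe]
      exact self_mem (hmem d hd h)
    have hKC : ∀ d, K d ⊆ C := fun d x hx => by
      rw [hKe] at hx
      exact Finset.mem_of_mem_erase (cmp_sub hx)
    have hKv : ∀ d, v ∉ K d := fun d h => by
      rw [hKe] at h
      exact (Finset.mem_erase.1 (cmp_sub h)).1 rfl
    have hIH : ∀ e ∈ U6, v + e ∈ C → v + (e - rt e) ∉ K e → Good U6 ∅ (K e) (v + e) 2 0 := by
      intro e he heC hne
      have hcard : (K e).card ≤ n := by
        rw [hKe]
        have := cmp_card_lt (U := U6) (k := v + e) hv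
        omega
      refine ih (K e) hcard ?_ (v + e) (hself e he heC) ⟨-e, U6_symm e he, ?_, ?_⟩
      · rw [hKe]
        exact con_cmp U6_symm
      · rw [add_neg_cancel_right]
        exact hKv e
      · rw [rt_neg, add_assoc, ← sub_eq_add_neg]
        exact hne
    -- adjacent positions
    have hadj : ∀ x ∈ U6, ∀ y ∈ U6, y - x ∈ U6 → v + y ∈ C → ∀ z, v + x ∈ K z → v + y ∈ K z := by
      intro x _ y hy hxy hyC z hz
      rw [hKe] at hz ⊢
      refine cmp_adj hz (hmem y hy hyC) ?_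
      rw [add_sub_add_left_eq_sub]
      exact hxy
    have hdisj : ∀ x ∈ U6, v + x ∈ C → ∀ z, v + x ∉ K z → ∀ w, v + w ∈ K z → v + w ∉ K x := by
      intro x hx hxC z hxz w hw hw'
      rw [hKe] at hxz hw hw'
      exact Finset.disjoint_left.1 (cmp_disj U6_symm (hmem x hx hxC) hxz) hw hw'
    obtain ⟨e0, e1, e2, e3, hall, u0, u1, u2, u3, a01, a12, a23, p0, p1, p2, p3⟩ :
        ∃ e0 e1 e2 e3 : ℤ × ℤ, (∀ e ∈ U6, e = d ∨ e = rt d ∨ e = e0 ∨ e = e1 ∨ e = e2 ∨ e = e3) ∧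
        e0 ∈ U6 ∧ e1 ∈ U6 ∧ e2 ∈ U6 ∧ e3 ∈ U6 ∧ e1 - e0 ∈ U6 ∧ e2 - e1 ∈ U6 ∧ e3 - e2 ∈ U6 ∧
        e0 - rt e0 = rt d ∧ e1 - rt e1 = e0 ∧ e2 - rt e2 = e1 ∧ e3 - rt e3 = e2 := by
      obtain ⟨r1, r2, r3, r4, r5, r6, r7, r8, r9, r10, r11, r12⟩ := U6_fac d hd
      exact ⟨rt (rt d), -d, -rt d, -rt (rt d), U6_all d hd, r2, r3, r4, r5, r6, r7, r8, r9, r10,
        r11, r12⟩
    have hcov : ∀ P : ℤ × ℤ → Prop, (v + e0 ∈ C → P e0) → (v + e1 ∈ C → P e1) →
        (v + e2 ∈ C → P e2) → (v + e3 ∈ C → P e3) → ∀ e ∈ U6, v + e ∈ C → P e := by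
      intro P p0 p1 p2 p3 e he heC
      rcases hall e he with h | h | h | h | h | h
      · exact absurd (h ▸ heC) hd0
      · exact absurd (h ▸ heC) hd1
      · exact h ▸ p0 (h ▸ heC)
      · exact h ▸ p1 (h ▸ heC)
      · exact h ▸ p2 (h ▸ heC)
      · exact h ▸ p3 (h ▸ heC)
    have fin : ∀ x ∈ U6, ∀ y ∈ U6, v + y ∈ C → Good U6 ∅ (K x) (v + x) 2 0 →
        (v + y ∉ K x → Good U6 ∅ (K y) (v + y) 2 0) →
        (∀ e ∈ U6, v + e ∈ C → v + e ∈ K x ∨ v + e ∈ K y) → Good U6 ∅ C v 2 0 := by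
      intro x hx y hy hyC gx gy h
      rw [hKe] at gx gy
      simp only [hKe] at h
      rw [hKe] at gy
      exact hex_two hC hv hx hy hyC gx gy h
    have g0 : v + e0 ∈ C → Good U6 ∅ (K e0) (v + e0) 2 0 := fun h =>
      hIH e0 u0 h (fun h1 => hd1 (by rw [p0] at h1; exact hKC _ h1))
    have g1 : v + e1 ∈ C → (∀ h : v + e0 ∈ C, v + e0 ∉ K e1) →
        Good U6 ∅ (K e1) (v + e1) 2 0 := fun h h' =>
      hIH e1 u1 h (fun h1 => by rw [p1] at h1; exact h' (hKC _ h1) h1)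
    have g2 : v + e2 ∈ C → (∀ h : v + e1 ∈ C, v + e1 ∉ K e2) →
        Good U6 ∅ (K e2) (v + e2) 2 0 := fun h h' =>
      hIH e2 u2 h (fun h1 => by rw [p2] at h1; exact h' (hKC _ h1) h1)
    have g3 : v + e3 ∈ C → (∀ h : v + e2 ∈ C, v + e2 ∉ K e3) →
        Good U6 ∅ (K e3) (v + e3) 2 0 := fun h h' =>
      hIH e3 u3 h (fun h1 => by rw [p3] at h1; exact h' (hKC _ h1) h1)
    have s0 : v + e0 ∈ C → v + e0 ∈ K e0 := hself e0 u0
    have s1 : v + e1 ∈ C → v + e1 ∈ K e1 := hself e1 u1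
    have s2 : v + e2 ∈ C → v + e2 ∈ K e2 := hself e2 u2
    have s3 : v + e3 ∈ C → v + e3 ∈ K e3 := hself e3 u3
    have t1 : v + e1 ∈ C → ∀ z, v + e0 ∈ K z → v + e1 ∈ K z := hadj e0 u0 e1 u1 a01
    have t2 : v + e2 ∈ C → ∀ z, v + e1 ∈ K z → v + e2 ∈ K z := hadj e1 u1 e2 u2 a12
    have t3 : v + e3 ∈ C → ∀ z, v + e2 ∈ K z → v + e3 ∈ K z := hadj e2 u2 e3 u3 a23
    by_cases h0 : v + e0 ∈ C
    · by_cases h2 : v + e2 ∈ C ∧ v + e2 ∉ K e0
      · have h1 : v + e1 ∉ C := fun h => h2.2 (t2 h2.1 _ (t1 h _ (s0 h0)))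
        refine fin e0 u0 e2 u2 h2.1 (g0 h0) (fun _ => g2 h2.1 fun h => absurd h h1)
          (hcov _ (fun h => Or.inl (s0 h)) (fun h => absurd h h1) (fun h => Or.inr (s2 h))
            (fun h => Or.inr (t3 h _ (s2 h2.1))))
      · have h2' : v + e2 ∈ C → v + e2 ∈ K e0 := fun h => by
          by_contra h3
          exact h2 ⟨h, h3⟩
        by_cases h3 : v + e3 ∈ C
        · refine fin e0 u0 e3 u3 h3 (g0 h0) (fun h4 => g3 h3 fun h =>
            absurd (t3 h3 _ (h2' h)) h4)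
            (hcov _ (fun h => Or.inl (s0 h)) (fun h => Or.inl (t1 h _ (s0 h0)))
              (fun h => Or.inl (h2' h)) (fun h => Or.inr (s3 h)))
        · refine fin e0 u0 e0 u0 h0 (g0 h0) (fun _ => g0 h0)
            (hcov _ (fun h => Or.inl (s0 h)) (fun h => Or.inl (t1 h _ (s0 h0)))
              (fun h => Or.inl (h2' h)) (fun h => absurd h h3))
    · by_cases h1 : v + e1 ∈ C
      · have g1' := g1 h1 fun h => absurd h h0
        by_cases h3 : v + e3 ∈ C
        · refine fin e1 u1 e3 u3 h3 g1' (fun h4 => g3 h3 fun h =>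
            absurd (t3 h3 _ (t2 h _ (s1 h1))) h4)
            (hcov _ (fun h => absurd h h0) (fun h => Or.inl (s1 h))
              (fun h => Or.inl (t2 h _ (s1 h1))) (fun h => Or.inr (s3 h)))
        · refine fin e1 u1 e1 u1 h1 g1' (fun _ => g1')
            (hcov _ (fun h => absurd h h0) (fun h => Or.inl (s1 h))
              (fun h => Or.inl (t2 h _ (s1 h1))) (fun h => absurd h h3))
      · by_cases h2 : v + e2 ∈ C
        · have g2' := g2 h2 fun h => absurd h h1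
          refine fin e2 u2 e2 u2 h2 g2' (fun _ => g2')
            (hcov _ (fun h => absurd h h0) (fun h => absurd h h1)
              (fun h => Or.inl (s2 h)) (fun h => Or.inl (t3 h _ (s2 h2))))
        · by_cases h3 : v + e3 ∈ C
          · have g3' := g3 h3 fun h => absurd h h2
            refine fin e3 u3 e3 u3 h3 g3' (fun _ => g3')
              (hcov _ (fun h => absurd h h0) (fun h => absurd h h1)
                (fun h => absurd h h2) (fun h => Or.inl (s3 h)))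
          · have hCv : C = {v} := by
              refine build0 hC hv fun k hk h => ?_
              have := hcov (fun _ => False) h0 h1 h2 h3 (k - v) h
                (by rw [add_sub_cancel]; exact Finset.mem_of_mem_erase hk)
              exact this
            have h5 : Good U6 ∅ C v 0 0 := by
              rw [hCv]
              exact Good.single v
            exact h5.mono (Nat.zero_le _) le_rfl

end MP_675adf_co_LT
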