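import Pool.Agent.Lib.MP_675adf_co_LT.Sq
import Pool.Agent.Lib.MP_675adf_co_LT.Hex

/-!
# From rooted trees on lattice points to spanning trees of point sets
-/

set_option autoImplicit false

namespace MP_675adf_co_LT

/-- The Euclidean plane. -/
abbrev E := EuclideanSpace ℝ (Fin 2)

open Classical in
/-- total Euclidean length of the edges of a graph T whose vertices are the points of P -/
noncomputable def treeLength (P : Finset (EuclideanSpace ℝ (Fin 2))) (T : SimpleGraph P) : ℝ :=
  ∑ e ∈ Finset.univ.filter (fun e : Sym2 P => e ∈ T.edgeSet),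
    Sym2.lift ⟨fun a b : P => dist (a : EuclideanSpace ℝ (Fin 2)) b, fun _ _ => dist_comm _ _⟩ e

/-- Length of an edge. -/
noncomputable def len (P : Finset E) : Sym2 P → ℝ :=
  Sym2.lift ⟨fun a b : P => dist (a : EuclideanSpace ℝ (Fin 2)) b, fun _ _ => dist_comm _ _⟩

theorem len_nonneg (P : Finset E) (e : Sym2 P) : 0 ≤ len P e := by
  induction e using Sym2.ind with
  | _ a b => exact dist_nonneg (x := (a : E)) (y := (b : E))

theorem conv {P : Finset E} {φ : ℤ × ℤ → E} {w : P → ℤ × ℤ} (hφ : ∀ p, φ (w p) = p)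
    {C : Finset (ℤ × ℤ)} (hC : ∀ x, x ∈ C ↔ ∃ p : P, w p = x) {U D : Finset (ℤ × ℤ)} {L : ℝ}
    (hL : 1 ≤ L) (hU : ∀ x y, x - y ∈ U → dist (φ x) (φ y) ≤ 1)
    (hD : ∀ x y, x - y ∈ D → dist (φ x) (φ y) ≤ L) {v : ℤ × ℤ} {f : ℕ}
    (hg : Good U D C v 2 f) : ∃ T : SimpleGraph P, T.IsTree ∧
      (∀ p, (T.neighborSet p).ncard ≤ 3) ∧ treeLength P T + 1 ≤ P.card + f * (L - 1) := by
  classical
  obtain ⟨par, rk, t, h1, -, h3⟩ := hg
  have winj : Function.Injective w := fun p q h => Subtype.ext (by rw [← hφ p, ← hφ q, h])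
  obtain ⟨r, hr⟩ := (hC v).1 t.mem
  have hwC : ∀ p : P, w p ∈ C := fun p => (hC _).2 ⟨p, rfl⟩
  have hex : ∀ p : P, ∃ q : P, w p ≠ v → w q = par (w p) := by
    intro p
    by_cases h : w p = v
    · exact ⟨p, fun h' => absurd h h'⟩
    · obtain ⟨q, hq⟩ := (hC _).1 (t.par_mem _ (hwC p) h)
      exact ⟨q, fun _ => hq⟩
  choose pr hpr using hex
  let T : SimpleGraph P := SimpleGraph.fromRel fun p q => w p ≠ v ∧ q = pr p
  have hadj : ∀ p, w p ≠ v → T.Adj p (pr p) := by
    intro p hp
    rw [SimpleGraph.fromRel_adj]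
    refine ⟨?_, Or.inl ⟨hp, rfl⟩⟩
    intro h
    have h4 := hpr p hp
    have h5 := t.rk_lt _ (hwC p) hp
    rw [← h4, ← h] at h5
    exact lt_irrefl _ h5
  have hreach : ∀ n : ℕ, ∀ p, rk (w p) ≤ n → T.Reachable p r := by
    intro n
    induction n with
    | zero =>
      intro p hp
      by_cases h : w p = v
      · rw [winj (h.trans hr.symm)]
      · have h5 := t.rk_lt _ (hwC p) h
        omega
    | succ n ih =>
      intro p hp
      by_cases h : w p = v
      · rw [winj (h.trans hr.symm)]
      · have h5 := t.rk_lt _ (hwC p) h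
        rw [← hpr p h] at h5
        exact (hadj p h).reachable.trans (ih (pr p) (by omega))
  have hconn : T.Connected := by
    have : Nonempty P := ⟨r⟩
    exact ⟨fun p q => (hreach _ p le_rfl).trans (hreach _ q le_rfl).symm⟩
  let S : Finset P := Finset.univ.filter fun p => w p ≠ v
  have hS : S.card + 1 = P.card := by
    have h4 : S = Finset.univ.erase r := by
      ext p
      rw [Finset.mem_filter, Finset.mem_erase]
      constructor
      · rintro ⟨h5, h6⟩
        exact ⟨fun h => h6 (h ▸ hr), h5⟩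
      · rintro ⟨h5, h6⟩
        exact ⟨h6, fun h => h5 (winj (h.trans hr.symm))⟩
    rw [h4, Finset.card_erase_of_mem (Finset.mem_univ r), Finset.card_univ, Fintype.card_coe]
    have : 0 < P.card := Finset.card_pos.2 ⟨r.1, r.2⟩
    omega
  let g : P → Sym2 P := fun p => s(p, pr p)
  have hE : ∀ e : Sym2 P, e ∈ T.edgeSet → e ∈ S.image g := by
    intro e he2
    induction e using Sym2.ind with
    | _ a b =>
      rw [SimpleGraph.mem_edgeSet, SimpleGraph.fromRel_adj] at he2
      rcases he2.2 with h | h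
      · exact Finset.mem_image.2 ⟨a, Finset.mem_filter.2 ⟨Finset.mem_univ a, h.1⟩, by
          simp only [g]
          rw [h.2]⟩
      · exact Finset.mem_image.2 ⟨b, Finset.mem_filter.2 ⟨Finset.mem_univ b, h.1⟩, by
          simp only [g]
          rw [← h.2, Sym2.eq_swap]⟩
  have hcard : Nat.card T.edgeSet = (Finset.univ.filter (fun e : Sym2 P => e ∈ T.edgeSet)).card := by
    rw [Nat.card_eq_fintype_card, ← Set.toFinset_card]
    congr 1
    ext e
    simp
  have htree : T.IsTree := by
    rw [SimpleGraph.isTree_iff_connected_and_card]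
    refine ⟨hconn, le_antisymm ?_ hconn.card_vert_le_card_edgeSet_add_one⟩
    rw [Nat.card_eq_fintype_card (α := P), Fintype.card_coe, hcard]
    have h4 : (Finset.univ.filter (fun e : Sym2 P => e ∈ T.edgeSet)).card ≤ (S.image g).card :=
      Finset.card_le_card fun e he => hE e (Finset.mem_filter.1 he).2
    have h5 : (S.image g).card ≤ S.card := Finset.card_image_le
    omega
  refine ⟨T, htree, ?_, ?_⟩
  · intro p
    have h4 : T.neighborSet p ⊆ w ⁻¹' (chl C v par (w p) : Set (ℤ × ℤ)) ∪ {pr p} := by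
      intro q hq
      rw [SimpleGraph.mem_neighborSet, SimpleGraph.fromRel_adj] at hq
      rcases hq.2 with h | h
      · exact Or.inr h.2
      · refine Or.inl (Finset.mem_coe.2 (Finset.mem_filter.2 ⟨hwC q, h.1, ?_⟩))
        rw [← hpr q h.1, ← h.2]
    have h5 : (w ⁻¹' (chl C v par (w p) : Set (ℤ × ℤ))).ncard ≤ 2 := by
      have h6 : (w ⁻¹' (chl C v par (w p) : Set (ℤ × ℤ))).ncard ≤
          ((chl C v par (w p) : Finset (ℤ × ℤ)) : Set (ℤ × ℤ)).ncard := by
        refine Set.ncard_le_ncard_of_injOn w (fun a ha => ha) winj.injOn (Finset.finite_toSet _)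
      rw [Set.ncard_coe_finset] at h6
      exact h6.trans (h1 _)
    calc (T.neighborSet p).ncard ≤ (w ⁻¹' (chl C v par (w p) : Set (ℤ × ℤ)) ∪ {pr p}).ncard :=
          Set.ncard_le_ncard h4 (Set.toFinite _)
      _ ≤ (w ⁻¹' (chl C v par (w p) : Set (ℤ × ℤ))).ncard + ({pr p} : Set P).ncard :=
          Set.ncard_union_le _ _
      _ ≤ 3 := by
          rw [Set.ncard_singleton]
          omega
  · have h4 : treeLength P T ≤ ∑ p ∈ S, len P (g p) := by
      calc treeLength P T ≤ ∑ e ∈ S.image g, len P e := by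
            unfold treeLength
            refine Finset.sum_le_sum_of_subset_of_nonneg (fun e he => ?_)
              fun e _ _ => len_nonneg P e
            simp only [Finset.mem_filter] at he
            exact hE e he.2
        _ ≤ ∑ p ∈ S, len P (g p) := Finset.sum_image_le_of_nonneg fun e _ => len_nonneg P e
    have h5 : ∀ p ∈ S, len P (g p) ≤ 1 + (if w p - par (w p) ∈ U then 0 else (L - 1)) := by
      intro p hp
      have hpv : w p ≠ v := (Finset.mem_filter.1 hp).2
      have h6 : len P (g p) = dist (φ (w p)) (φ (par (w p))) := by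
        rw [hφ, ← hpr p hpv, hφ]
        rfl
      rw [h6]
      split_ifs with h7
      · have := hU _ _ h7
        linarith
      · rcases t.step _ (hwC p) hpv with h8 | h8
        · exact absurd h8 h7
        · have := hD _ _ h8
          linarith
    have h6 : ∑ p ∈ S, len P (g p) ≤ S.card + (S.filter fun p => w p - par (w p) ∉ U).card *
        (L - 1) := by
      refine (Finset.sum_le_sum h5).trans (le_of_eq ?_)
      rw [Finset.sum_add_distrib, Finset.sum_const, nsmul_eq_mul, mul_one, Finset.sum_ite,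
        Finset.sum_const_zero, zero_add, Finset.sum_const, nsmul_eq_mul]
    have h7 : (S.filter fun p => w p - par (w p) ∉ U).card ≤ f := by
      refine le_trans ?_ h3
      refine Finset.card_le_card_of_injOn w ?_ winj.injOn
      intro p hp
      have hp' := Finset.mem_filter.1 (Finset.mem_coe.1 hp)
      exact Finset.mem_coe.2 (Finset.mem_filter.2 ⟨hwC p, (Finset.mem_filter.1 hp'.1).2, hp'.2⟩)
    have h8 : ((S.filter fun p => w p - par (w p) ∉ U).card : ℝ) * (L - 1) ≤ f * (L - 1) :=
      mul_le_mul_of_nonneg_right (by exact_mod_cast h7) (by linarith)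
    have h9 : (S.card : ℝ) + 1 = P.card := by exact_mod_cast hS
    linarith

theorem tree_ge {P : Finset E} (hd : ∀ p ∈ P, ∀ q ∈ P, p ≠ q → 1 ≤ dist p q)
    {T : SimpleGraph P} (hT : T.IsTree) : (P.card : ℝ) ≤ treeLength P T + 1 := by
  classical
  have h1 := (SimpleGraph.isTree_iff_connected_and_card.1 hT).2
  have hcard : Nat.card T.edgeSet = (Finset.univ.filter (fun e : Sym2 P => e ∈ T.edgeSet)).card := by
    rw [Nat.card_eq_fintype_card, ← Set.toFinset_card]
    congr 1
    ext e
    simp
  rw [hcard, Nat.card_eq_fintype_card (α := P), Fintype.card_coe] at h1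
  have h2 : ((Finset.univ.filter (fun e : Sym2 P => e ∈ T.edgeSet)).card : ℝ) ≤
      treeLength P T := by
    have h3 : ∀ e ∈ Finset.univ.filter (fun e : Sym2 P => e ∈ T.edgeSet), 1 ≤ len P e := by
      intro e he
      rw [Finset.mem_filter] at he
      have he2 := he.2
      clear he
      induction e using Sym2.ind with
      | _ a b =>
        rw [SimpleGraph.mem_edgeSet] at he2
        exact hd a a.2 b b.2 fun h => he2.ne (Subtype.ext h)
    have h4 := Finset.sum_le_sum h3
    rw [Finset.sum_const, nsmul_eq_mul, mul_one] at h4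
    exact h4
  have h3 : ((Finset.univ.filter (fun e : Sym2 P => e ∈ T.edgeSet)).card : ℝ) + 1 = P.card := by
    exact_mod_cast h1
  linarith

end MP_675adf_co_LT
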