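import Pool.Agent.Lib.MP_675adf_co_LT.Geo

/-!
# The upper bound for lattice sets, and its sharpness
-/

set_option autoImplicit false

namespace MP_675adf_co_LT

/-- the graph on P joining the points at distance 1 -/
def unitGraph (P : Finset (EuclideanSpace ℝ (Fin 2))) : SimpleGraph P :=
  SimpleGraph.fromRel fun p q => dist (p : EuclideanSpace ℝ (Fin 2)) q = 1

theorem unit_adj {P : Finset E} {p q : P} : (unitGraph P).Adj p q ↔ dist (p : E) q = 1 := by
  rw [unitGraph, SimpleGraph.fromRel_adj]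
  constructor
  · rintro ⟨-, h | h⟩
    · exact h
    · rw [dist_comm]
      exact h
  · intro h
    refine ⟨?_, Or.inl h⟩
    rintro rfl
    rw [dist_self] at h
    exact zero_ne_one h

theorem con_of {P : Finset E} {w : P → ℤ × ℤ} {C U : Finset (ℤ × ℤ)}
    (hC : ∀ x, x ∈ C ↔ ∃ p : P, w p = x) (hc : (unitGraph P).Connected)
    (hU : ∀ p q : P, dist (p : E) q = 1 → w q - w p ∈ U) : Con U C := by
  intro x hx y hy
  obtain ⟨p, rfl⟩ := (hC x).1 hx
  obtain ⟨q, rfl⟩ := (hC y).1 hy
  have h := (SimpleGraph.reachable_iff_reflTransGen p q).1 (hc.preconnected p q)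
  induction h with
  | refl => exact Relation.ReflTransGen.refl
  | tail _ h3 ih =>
    exact (ih ((hC _).2 ⟨_, rfl⟩)).tail ⟨(hC _).2 ⟨_, rfl⟩, (hC _).2 ⟨_, rfl⟩,
      hU _ _ (unit_adj.1 h3)⟩

theorem lex_max {C : Finset (ℤ × ℤ)} (h : C.Nonempty) : ∃ v ∈ C, v + (1, 0) ∉ C ∧
    v + (0, 1) ∉ C ∧ v + (1, -1) ∉ C := by
  obtain ⟨v, hv, hm⟩ := Finset.exists_max_image C (fun x => toLex x) h
  refine ⟨v, hv, fun h1 => ?_, fun h1 => ?_, fun h1 => ?_⟩
  · have := Prod.Lex.toLex_le_toLex.1 (hm _ h1)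
    simp only [Prod.fst_add, Prod.snd_add] at this
    omega
  · have := Prod.Lex.toLex_le_toLex.1 (hm _ h1)
    simp only [Prod.fst_add, Prod.snd_add] at this
    omega
  · have := Prod.Lex.toLex_le_toLex.1 (hm _ h1)
    simp only [Prod.fst_add, Prod.snd_add] at this
    omega

section
variable {a u v : E} (hu : ‖u‖ = 1) (hv : ‖v‖ = 1) (h0 : 0 ≤ inner ℝ u v)
  (h1 : inner ℝ u v ≤ 1 / 2)
include hu hv h0 h1

theorem upper {P : Finset E} (hP : ∀ p ∈ P, ∃ x : ℤ × ℤ, ph a u v x = p)
    (hc : (unitGraph P).Connected) : ∃ T : SimpleGraph P, T.IsTree ∧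
      (∀ p, (T.neighborSet p).ncard ≤ 3) ∧
      treeLength P T ≤ (3 + ‖u - v‖) / 4 * (P.card - 1) := by
  classical
  have hex : ∀ p : P, ∃ x : ℤ × ℤ, ph a u v x = p := fun p => hP p p.2
  choose w hw using hex
  have winj : Function.Injective w := fun p q h => Subtype.ext (by rw [← hw p, ← hw q, h])
  obtain ⟨C, hCd⟩ : ∃ C : Finset (ℤ × ℤ), C = Finset.univ.image w := ⟨_, rfl⟩
  have hC : ∀ x, x ∈ C ↔ ∃ p : P, w p = x := by
    intro x
    rw [hCd]
    simp
  have hcard : C.card = P.card := by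
    rw [hCd, Finset.card_image_of_injective _ winj, Finset.card_univ, Fintype.card_coe]
  obtain ⟨r⟩ := hc.nonempty
  have hne : C.Nonempty := ⟨w r, (hC _).2 ⟨r, rfl⟩⟩
  obtain ⟨x, hx, m1, m2, m3⟩ := lex_max hne
  have hL := diag_ge hu hv h1
  have hPc : (1 : ℝ) ≤ P.card := by
    have : 0 < P.card := Finset.card_pos.2 ⟨r.1, r.2⟩
    exact_mod_cast this
  by_cases ht : inner ℝ u v = 1 / 2
  · have hcon : Con U6 C := by
      refine con_of hC hc fun p q hpq => ?_
      rw [← hw p, ← hw q] at hpq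
      rcases ph_one hu hv h0 h1 hpq with h | h
      · revert h
        have : ∀ d ∈ U4, d ∈ U6 := by decide
        exact this _
      · exact h.2
    have hg := hex_main C.card C le_rfl hcon x hx ⟨(1, -1), by decide, m3, m1⟩
    obtain ⟨T, hT, hdeg, hlen⟩ := conv (L := 1) hw hC le_rfl
      (fun y z h => dir_six hu hv ht h) (fun y z h => absurd h (Finset.notMem_empty _)) hg
    refine ⟨T, hT, hdeg, ?_⟩
    rw [sub_self, mul_zero, add_zero] at hlen
    nlinarith
  · have hcon : Con U4 C := by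
      refine con_of hC hc fun p q hpq => ?_
      rw [← hw p, ← hw q] at hpq
      rcases ph_one hu hv h0 h1 hpq with h | h
      · exact h
      · exact absurd h.1 ht
    have hnb : (nb U4 C x).card ≤ 2 := by
      have h2 : nb U4 C x ⊆ {(-1, 0), (0, -1)} := by
        intro d hd
        obtain ⟨hd1, hd2⟩ := mem_nb.1 hd
        simp only [U4, Finset.mem_insert, Finset.mem_singleton] at hd1
        rcases hd1 with h | h | h | h
        · rw [h] at hd2
          exact absurd hd2 m1
        · rw [h] at hd2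
          exact absurd hd2 m2
        · rw [h]
          simp
        · rw [h]
          simp
      exact (Finset.card_le_card h2).trans Finset.card_le_two
    obtain ⟨f, hg, -, hf⟩ := sq_main C.card C le_rfl hcon x hx (by omega)
    have hf' := hf hnb
    obtain ⟨T, hT, hdeg, hlen⟩ := conv (L := ‖u - v‖) hw hC hL
      (fun y z h => dir_one hu hv h) (fun y z h => dir_diag h)
      (hg.mono (by omega) le_rfl)
    refine ⟨T, hT, hdeg, ?_⟩
    rw [hcard] at hf'
    have h5 : 4 * (f : ℝ) + 1 ≤ P.card := by exact_mod_cast hf'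
    nlinarith

omit hu hv h0 h1 in
theorem unit_tree {P : Finset E} (hc : (unitGraph P).Connected) : ∃ T : SimpleGraph P,
    T.IsTree ∧ treeLength P T + 1 = P.card := by
  classical
  obtain ⟨T, hle, hT⟩ := hc.exists_isTree_le
  refine ⟨T, hT, ?_⟩
  have h2 := (SimpleGraph.isTree_iff_connected_and_card.1 hT).2
  have hcard : Nat.card T.edgeSet =
      (Finset.univ.filter (fun e : Sym2 P => e ∈ T.edgeSet)).card := by
    rw [Nat.card_eq_fintype_card, ← Set.toFinset_card]
    congr 1
    ext e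
    simp
  rw [hcard, Nat.card_eq_fintype_card (α := P), Fintype.card_coe] at h2
  have h3 : treeLength P T = (Finset.univ.filter (fun e : Sym2 P => e ∈ T.edgeSet)).card := by
    have h4 : ∀ e ∈ Finset.univ.filter (fun e : Sym2 P => e ∈ T.edgeSet), len P e = 1 := by
      intro e he
      rw [Finset.mem_filter] at he
      have he2 := he.2
      clear he
      induction e using Sym2.ind with
      | _ a b =>
        rw [SimpleGraph.mem_edgeSet] at he2
        exact unit_adj.1 (hle he2)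
    have h5 := Finset.sum_congr rfl h4
    rw [Finset.sum_const, nsmul_eq_mul, mul_one] at h5
    exact h5
  rw [h3]
  exact_mod_cast h2

theorem class_ge {P : Finset E} (hP : ∀ p ∈ P, ∃ x : ℤ × ℤ, ph a u v x = p) :
    ∀ p ∈ P, ∀ q ∈ P, p ≠ q → 1 ≤ dist p q := by
  intro p hp q hq hpq
  obtain ⟨x, rfl⟩ := hP p hp
  obtain ⟨y, rfl⟩ := hP q hq
  exact ph_ge hu hv h0 h1 fun h => hpq (by rw [h])

omit h1 in
theorem four_ge {x y : ℤ × ℤ} (hx : x ∈ U4) (hy : y ∈ U4) (hxy : x ≠ y) :
    ‖u - v‖ ≤ dist (ph a u v x) (ph a u v y) := by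
  have h2 := dsq (a := a) hu hv x y
  have h3 : ‖u - v‖ ^ 2 = 2 - 2 * inner ℝ u v := by
    rw [norm_sub_sq_real, hu, hv]
    ring
  have h4 : ‖u - v‖ ^ 2 ≤ dist (ph a u v x) (ph a u v y) ^ 2 := by
    rw [h2, h3]
    simp only [U4, Finset.mem_insert, Finset.mem_singleton] at hx hy
    rcases hx with rfl | rfl | rfl | rfl <;> rcases hy with rfl | rfl | rfl | rfl <;>
      first
      | exact absurd rfl hxy
      | (norm_num <;> nlinarith)
  exact (sq_le_sq₀ (norm_nonneg _) dist_nonneg).1 h4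

end

end MP_675adf_co_LT
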