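import Pool.Agent.Lib.MP_675adf_co_LT.Plus

/-!
# General planar lattices with shortest vectors of length 1
-/

set_option autoImplicit false

namespace MP_675adf_co_LT

theorem span_of {P : Finset E} {u v : E} (hc : (unitGraph P).Connected)
    (H : ∀ p q : P, dist (p : E) q = 1 → ∃ x : ℤ × ℤ,
      (q : E) - p = (x.1 : ℝ) • u + (x.2 : ℝ) • v) (r : P) :
    ∀ p ∈ P, ∃ x : ℤ × ℤ, ph r u v x = p := by
  intro p hp
  have h := (SimpleGraph.reachable_iff_reflTransGen r ⟨p, hp⟩).1 (hc.preconnected r ⟨p, hp⟩)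
  have h2 : ∀ q : P, Relation.ReflTransGen (unitGraph P).Adj r q →
      ∃ x : ℤ × ℤ, ph r u v x = q := by
    intro q h
    induction h with
    | refl =>
      refine ⟨(0, 0), ?_⟩
      unfold ph
      simp
    | @tail b c _ h3 ih =>
      obtain ⟨x, hx⟩ := ih
      obtain ⟨y, hy⟩ := H _ _ (unit_adj.1 h3)
      refine ⟨(x.1 + y.1, x.2 + y.2), ?_⟩
      have h4 : (c : E) = b + ((y.1 : ℝ) • u + (y.2 : ℝ) • v) := by
        rw [← hy]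
        abel
      rw [h4, ← hx]
      unfold ph
      push_cast
      module
  exact h2 _ h

theorem inner_le {a b : E} (ha : ‖a‖ = 1) (hb : ‖b‖ = 1) (h : 1 ≤ ‖a - b‖) :
    inner ℝ a b ≤ 1 / 2 := by
  have h2 : ‖a - b‖ ^ 2 = 2 - 2 * inner ℝ a b := by
    rw [norm_sub_sq_real, ha, hb]
    ring
  nlinarith

theorem exists_basis {P : Finset E} {Λ : AddSubgroup E} (hΛ : ∀ x ∈ Λ, x ≠ 0 → 1 ≤ ‖x‖)
    (hP : ∀ p ∈ P, ∀ q ∈ P, p - q ∈ Λ) (hc : (unitGraph P).Connected) (h2 : 2 ≤ P.card) :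
    ∃ a u v : E, ‖u‖ = 1 ∧ ‖v‖ = 1 ∧ 0 ≤ inner ℝ u v ∧ inner ℝ u v ≤ 1 / 2 ∧
      ∀ p ∈ P, ∃ x : ℤ × ℤ, ph a u v x = p := by
  obtain ⟨p0, hp0, q0, hq0, hpq⟩ := Finset.one_lt_card.1 (by omega : 1 < P.card)
  have h := (SimpleGraph.reachable_iff_reflTransGen (⟨p0, hp0⟩ : P) ⟨q0, hq0⟩).1
    (hc.preconnected _ _)
  rcases Relation.ReflTransGen.cases_head h with h3 | ⟨c, h3, -⟩
  · exact absurd (congrArg Subtype.val h3) hpq
  have h4 := unit_adj.1 h3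
  obtain ⟨u, hu⟩ : ∃ u : E, u = p0 - c := ⟨_, rfl⟩
  have hu1 : ‖u‖ = 1 := by
    rw [hu, ← dist_eq_norm]
    exact h4
  have huΛ : u ∈ Λ := hu ▸ hP _ hp0 _ c.2
  have hun : ∀ p q : P, dist (p : E) q = 1 → ‖(q : E) - p‖ = 1 := fun p q h => by
    rw [← dist_eq_norm, dist_comm]
    exact h
  by_cases H : ∀ p q : P, dist (p : E) q = 1 → ((q : E) - p = u ∨ (q : E) - p = -u)
  · -- a line
    obtain ⟨v, hv⟩ : ∃ v : E, v = !₂[-u 1, u 0] := ⟨_, rfl⟩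
    have hv1 : ‖v‖ = 1 := by
      have h5 := EuclideanSpace.real_norm_sq_eq u
      have h6 := EuclideanSpace.real_norm_sq_eq v
      rw [hu1, Fin.sum_univ_two] at h5
      rw [Fin.sum_univ_two, hv] at h6
      simp only [Matrix.cons_val_zero, Matrix.cons_val_one, PiLp.toLp_apply] at h6
      rw [← hv] at h6
      have h7 : ‖v‖ ^ 2 = 1 := by rw [h6]; linarith
      nlinarith [norm_nonneg v]
    have huv : inner ℝ u v = 0 := by
      have : inner ℝ u v = u 0 * v 0 + u 1 * v 1 := by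
        simp [PiLp.inner_apply, Fin.sum_univ_two, mul_comm]
      rw [this, hv]
      simp only [Matrix.cons_val_zero, Matrix.cons_val_one, PiLp.toLp_apply]
      ring
    refine ⟨p0, u, v, hu1, hv1, huv.ge, by rw [huv]; norm_num,
      span_of hc (fun p q hpq => ?_) ⟨p0, hp0⟩⟩
    rcases H p q hpq with h5 | h5
    · exact ⟨(1, 0), by rw [h5]; simp⟩
    · exact ⟨(-1, 0), by rw [h5]; simp⟩
  · push Not at H
    obtain ⟨p1, q1, hpq1, hn1, hn2⟩ := H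
    obtain ⟨v, hvΛ, hv1, hvu, hvu', huv⟩ : ∃ v : E, v ∈ Λ ∧ ‖v‖ = 1 ∧ v ≠ u ∧ v ≠ -u ∧
        0 ≤ inner ℝ u v := by
      have h5 : (q1 : E) - p1 ∈ Λ := hP _ q1.2 _ p1.2
      rcases le_total 0 (inner ℝ u ((q1 : E) - p1)) with h6 | h6
      · exact ⟨_, h5, hun _ _ hpq1, hn1, hn2, h6⟩
      · refine ⟨-((q1 : E) - p1), Λ.neg_mem h5, by rw [norm_neg]; exact hun _ _ hpq1,
          fun h7 => hn2 (by rw [← h7, neg_neg]), fun h7 => hn1 (neg_injective h7), ?_⟩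
        rw [inner_neg_right]
        linarith
    have hge : ∀ x ∈ Λ, ∀ y ∈ Λ, x ≠ y → 1 ≤ ‖x - y‖ := fun x hx y hy hxy =>
      hΛ _ (Λ.sub_mem hx hy) (sub_ne_zero.2 hxy)
    have huv2 : inner ℝ u v ≤ 1 / 2 := inner_le hu1 hv1 (hge u huΛ v hvΛ hvu.symm)
    refine ⟨p0, u, v, hu1, hv1, huv, huv2, span_of hc (fun p q hpq => ?_) ⟨p0, hp0⟩⟩
    obtain ⟨d, hd⟩ : ∃ d : E, d = (q : E) - p := ⟨_, rfl⟩
    have hd1 : ‖d‖ = 1 := hd ▸ hun p q hpq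
    have hdΛ : d ∈ Λ := hd ▸ hP _ q.2 _ p.2
    rw [← hd]
    have habs : ∀ x ∈ Λ, ‖x‖ = 1 → d ≠ x → d ≠ -x → |inner ℝ d x| ≤ 1 / 2 := by
      intro x hx hx1 h5 h6
      rw [abs_le]
      constructor
      · have h7 := inner_le hd1 (by rw [norm_neg]; exact hx1 : ‖-x‖ = 1)
          (hge d hdΛ (-x) (Λ.neg_mem hx) h6)
        rw [inner_neg_right] at h7
        linarith
      · exact inner_le hd1 hx1 (hge d hdΛ x hx h5)
    by_cases c1 : d = u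
    · exact ⟨(1, 0), by rw [c1]; simp⟩
    by_cases c2 : d = -u
    · exact ⟨(-1, 0), by rw [c2]; simp⟩
    by_cases c3 : d = v
    · exact ⟨(0, 1), by rw [c3]; simp⟩
    by_cases c4 : d = -v
    · exact ⟨(0, -1), by rw [c4]; simp⟩
    rcases gram hu1 hv1 hd1 huv huv2 (habs u huΛ hu1 c1 c2) (habs v hvΛ hv1 c3 c4) with h5 | h5
    · exact ⟨(1, -1), by rw [h5]; simp [sub_eq_add_neg]⟩
    · exact ⟨(-1, 1), by rw [h5]; simp [sub_eq_add_neg, add_comm]⟩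

theorem plus_diff {u v : E} (hu : ‖u‖ = 1) (hv : ‖v‖ = 1) (h0 : 0 ≤ inner ℝ u v)
    (h1 : inner ℝ u v ≤ 1 / 2) : ∃ Λ : AddSubgroup E, (∀ x ∈ Λ, x ≠ 0 → 1 ≤ ‖x‖) ∧
      ∀ p ∈ plus u v, ∀ q ∈ plus u v, p - q ∈ Λ := by
  let g : ℤ × ℤ →+ E :=
    { toFun := fun x => (x.1 : ℝ) • u + (x.2 : ℝ) • v
      map_zero' := by simp
      map_add' := fun x y => by
        rw [Prod.fst_add, Prod.snd_add]
        push_cast
        module }
  refine ⟨g.range, ?_, ?_⟩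
  · rintro _ ⟨x, rfl⟩ hx
    have h2 : ‖(x.1 : ℝ) • u + (x.2 : ℝ) • v‖ ^ 2 = _ := nsq hu hv _ _
    have h3 : (1 : ℝ) ≤ ‖(x.1 : ℝ) • u + (x.2 : ℝ) • v‖ ^ 2 := by
      rw [h2]
      refine form_ge h0 h1 fun h => hx ?_
      have : x = 0 := Prod.ext h.1 h.2
      rw [this, map_zero]
    change 1 ≤ ‖(x.1 : ℝ) • u + (x.2 : ℝ) • v‖
    nlinarith [norm_nonneg ((x.1 : ℝ) • u + (x.2 : ℝ) • v)]
  · intro p hp q hq
    obtain ⟨x, -, rfl⟩ := mem_plus.1 hp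
    obtain ⟨y, -, rfl⟩ := mem_plus.1 hq
    exact ⟨x - y, (ph_sub _ _ _ _ _).symm⟩

end MP_675adf_co_LT
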