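import Pool.Agent.Lib.MP_675adf_co_LT.Conv

/-!
# Geometry of planar lattices with two or three pairs of unit vectors
-/

set_option autoImplicit false

namespace MP_675adf_co_LT

/-- The lattice point with coordinates `x`. -/
noncomputable def ph (a u v : E) (x : ℤ × ℤ) : E := a + ((x.1 : ℝ) • u + (x.2 : ℝ) • v)

theorem ph_sub (a u v : E) (x y : ℤ × ℤ) :
    ph a u v x - ph a u v y = (((x - y).1 : ℤ) : ℝ) • u + (((x - y).2 : ℤ) : ℝ) • v := by
  unfold ph
  rw [Prod.fst_sub, Prod.snd_sub]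
  push_cast
  module

theorem nsq {u v : E} (hu : ‖u‖ = 1) (hv : ‖v‖ = 1) (m n : ℝ) :
    ‖m • u + n • v‖ ^ 2 = m ^ 2 + n ^ 2 + 2 * (m * n) * inner ℝ u v := by
  rw [norm_add_sq_real, inner_smul_left, inner_smul_right, norm_smul, norm_smul, hu, hv]
  simp only [Real.norm_eq_abs, mul_one, sq_abs, conj_trivial]
  ring

theorem form_pos {m n : ℤ} (h : ¬ (m = 0 ∧ n = 0)) : 1 ≤ m ^ 2 + m * n + n ^ 2 := by
  by_contra h1
  have h2 : m ^ 2 + m * n + n ^ 2 ≤ 0 := by omega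
  have h3 : n = 0 := by
    have : n ^ 2 ≤ 0 := by nlinarith [sq_nonneg (2 * m + n), sq_nonneg n]
    exact pow_eq_zero_iff (two_ne_zero) |>.1 (le_antisymm this (sq_nonneg n))
  have h4 : m = 0 := by
    have : m ^ 2 ≤ 0 := by nlinarith [sq_nonneg (2 * n + m), sq_nonneg m]
    exact pow_eq_zero_iff (two_ne_zero) |>.1 (le_antisymm this (sq_nonneg m))
  exact h ⟨h4, h3⟩

theorem form_ge {m n : ℤ} {t : ℝ} (h0 : 0 ≤ t) (h1 : t ≤ 1 / 2) (h : ¬ (m = 0 ∧ n = 0)) :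
    1 ≤ (m : ℝ) ^ 2 + (n : ℝ) ^ 2 + 2 * ((m : ℝ) * n) * t := by
  have h2 : (1 : ℝ) ≤ (m : ℝ) ^ 2 + m * n + (n : ℝ) ^ 2 := by exact_mod_cast form_pos h
  have h3 : (1 : ℝ) ≤ (m : ℝ) ^ 2 - m * n + (n : ℝ) ^ 2 := by
    have h4 : ¬ (m = 0 ∧ -n = 0) := fun h5 => h ⟨h5.1, by omega⟩
    have h5 := form_pos h4
    have h6 : (1 : ℤ) ≤ m ^ 2 - m * n + n ^ 2 := by nlinarith
    exact_mod_cast h6
  rcases le_total 0 ((m : ℝ) * n) with h4 | h4
  · nlinarith
  · nlinarith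

theorem form_one {m n : ℤ} {t : ℝ} (h0 : 0 ≤ t) (h1 : t ≤ 1 / 2)
    (h : (m : ℝ) ^ 2 + (n : ℝ) ^ 2 + 2 * ((m : ℝ) * n) * t = 1) :
    (m, n) ∈ U4 ∨ (t = 1 / 2 ∧ (m, n) ∈ U6) := by
  have hb : m ^ 2 + m * n + n ^ 2 ≤ 1 ∨ m ^ 2 + n ^ 2 ≤ 1 := by
    rcases le_total 0 ((m : ℝ) * n) with h4 | h4
    · right
      have : (m : ℝ) ^ 2 + (n : ℝ) ^ 2 ≤ 1 := by nlinarith
      exact_mod_cast this
    · left
      have : (m : ℝ) ^ 2 + m * n + (n : ℝ) ^ 2 ≤ 1 := by nlinarith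
      exact_mod_cast this
  have hm : m ^ 2 ≤ 1 := by
    have : m ^ 2 < 2 := by
      rcases hb with h2 | h2
      · nlinarith [sq_nonneg (2 * n + m), sq_nonneg m]
      · nlinarith [sq_nonneg n]
    omega
  have hn : n ^ 2 ≤ 1 := by
    have : n ^ 2 < 2 := by
      rcases hb with h2 | h2
      · nlinarith [sq_nonneg (2 * m + n), sq_nonneg n]
      · nlinarith [sq_nonneg m]
    omega
  have m1 : m ≤ 1 := by nlinarith
  have m2 : -1 ≤ m := by nlinarith
  have n1 : n ≤ 1 := by nlinarith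
  have n2 : -1 ≤ n := by nlinarith
  interval_cases m <;> interval_cases n
  · exfalso; norm_num at h; linarith
  · left; decide
  · right
    refine ⟨by norm_num at h; linarith, by decide⟩
  · left; decide
  · exfalso; norm_num at h
  · left; decide
  · right
    refine ⟨by norm_num at h; linarith, by decide⟩
  · left; decide
  · exfalso; norm_num at h; linarith

section
variable {a u v : E} (hu : ‖u‖ = 1) (hv : ‖v‖ = 1) (h0 : 0 ≤ inner ℝ u v)
  (h1 : inner ℝ u v ≤ 1 / 2)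
include hu hv

theorem dsq (x y : ℤ × ℤ) : dist (ph a u v x) (ph a u v y) ^ 2 =
    (((x - y).1 : ℤ) : ℝ) ^ 2 + (((x - y).2 : ℤ) : ℝ) ^ 2 +
      2 * ((((x - y).1 : ℤ) : ℝ) * (((x - y).2 : ℤ) : ℝ)) * inner ℝ u v := by
  rw [dist_eq_norm, ph_sub, nsq hu hv]

include h0 h1

theorem ph_ge {x y : ℤ × ℤ} (hxy : x ≠ y) : 1 ≤ dist (ph a u v x) (ph a u v y) := by
  have h2 := dsq (a := a) hu hv x y
  have h3 : 1 ≤ dist (ph a u v x) (ph a u v y) ^ 2 := by
    rw [h2]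
    refine form_ge h0 h1 fun h => hxy ?_
    have : x - y = 0 := Prod.ext h.1 h.2
    exact sub_eq_zero.1 this
  nlinarith [dist_nonneg (x := ph a u v x) (y := ph a u v y)]

theorem ph_inj : Function.Injective (ph a u v) := by
  intro x y h
  by_contra hxy
  have := ph_ge (a := a) hu hv h0 h1 hxy
  rw [h, dist_self] at this
  linarith

theorem ph_one {x y : ℤ × ℤ} (h : dist (ph a u v x) (ph a u v y) = 1) :
    y - x ∈ U4 ∨ (inner ℝ u v = 1 / 2 ∧ y - x ∈ U6) := by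
  have h2 := dsq (a := a) hu hv x y
  rw [h, one_pow] at h2
  rcases form_one h0 h1 h2.symm with h3 | ⟨h3, h4⟩
  · left
    have := U4_symm _ h3
    rw [Prod.mk.eta, neg_sub] at this
    exact this
  · right
    have := U6_symm _ h4
    rw [Prod.mk.eta, neg_sub] at this
    exact ⟨h3, this⟩

omit h0 h1 in
theorem dir_one {x y : ℤ × ℤ} (h : x - y ∈ U4) : dist (ph a u v x) (ph a u v y) ≤ 1 := by
  have h2 := dsq (a := a) hu hv x y
  have h3 : dist (ph a u v x) (ph a u v y) ^ 2 = 1 := by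
    rw [h2]
    simp only [U4, Finset.mem_insert, Finset.mem_singleton] at h
    rcases h with h | h | h | h <;> rw [h] <;> norm_num
  nlinarith [dist_nonneg (x := ph a u v x) (y := ph a u v y)]

omit h0 h1 in
theorem dir_six (ht : inner ℝ u v = 1 / 2) {x y : ℤ × ℤ} (h : x - y ∈ U6) :
    dist (ph a u v x) (ph a u v y) ≤ 1 := by
  have h2 := dsq (a := a) hu hv x y
  have h3 : dist (ph a u v x) (ph a u v y) ^ 2 = 1 := by
    rw [h2, ht]
    simp only [U6, Finset.mem_insert, Finset.mem_singleton] at h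
    rcases h with h | h | h | h | h | h <;> rw [h] <;> norm_num
  nlinarith [dist_nonneg (x := ph a u v x) (y := ph a u v y)]

omit h0 h1 hu hv in
theorem dir_diag {x y : ℤ × ℤ} (h : x - y ∈ D2) :
    dist (ph a u v x) (ph a u v y) ≤ ‖u - v‖ := by
  rw [dist_eq_norm, ph_sub]
  simp only [D2, Finset.mem_insert, Finset.mem_singleton] at h
  rcases h with h | h
  · rw [h]
    simp [sub_eq_add_neg]
  · rw [h]
    rw [← norm_neg (u - v)]
    simp [sub_eq_add_neg, add_comm]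

omit h0 in
theorem diag_ge : 1 ≤ ‖u - v‖ := by
  have h2 : ‖u - v‖ ^ 2 = 2 - 2 * inner ℝ u v := by
    rw [norm_sub_sq_real, hu, hv]
    ring
  nlinarith [norm_nonneg (u - v)]

end

end MP_675adf_co_LT
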