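import Pool.Agent.Lib.MP_675adf_co_LT.End

/-!
# The five point set, and general lattices
-/

set_option autoImplicit false

namespace MP_675adf_co_LT

open Classical in
/-- The origin and the four points u, v, -u, -v. -/
noncomputable def plus (u v : E) : Finset E :=
  (insert (0, 0) U4).image (ph 0 u v)

theorem mem_plus {u v : E} {p : E} :
    p ∈ plus u v ↔ ∃ x, (x = (0, 0) ∨ x ∈ U4) ∧ ph 0 u v x = p := by
  classical
  unfold plus
  simp only [Finset.mem_image, Finset.mem_insert]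

section
variable {u v : E} (hu : ‖u‖ = 1) (hv : ‖v‖ = 1) (h0 : 0 ≤ inner ℝ u v)
  (h1 : inner ℝ u v ≤ 1 / 2)
include hu hv h0 h1

theorem plus_card : (plus u v).card = 5 := by
  classical
  unfold plus
  rw [Finset.card_image_of_injective _ (ph_inj hu hv h0 h1)]
  decide

theorem plus_conn : (unitGraph (plus u v)).Connected := by
  have ho : ph 0 u v (0, 0) ∈ plus u v := mem_plus.2 ⟨_, Or.inl rfl, rfl⟩
  have h2 : ∀ p : plus u v, (unitGraph (plus u v)).Reachable p ⟨_, ho⟩ := by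
    rintro ⟨p, hp⟩
    obtain ⟨x, hx, rfl⟩ := mem_plus.1 hp
    rcases hx with rfl | hx
    · exact SimpleGraph.Reachable.refl _
    · refine SimpleGraph.Adj.reachable (unit_adj.2 (le_antisymm ?_ ?_))
      · refine dir_one hu hv ?_
        rw [show ((0, 0) : ℤ × ℤ) = 0 from rfl, sub_zero]
        exact hx
      · refine ph_ge hu hv h0 h1 ?_
        rintro rfl
        revert hx
        decide
  have : Nonempty (plus u v) := ⟨⟨_, ho⟩⟩
  exact ⟨fun p q => (h2 p).trans (h2 q).symm⟩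

theorem plus_ge {T : SimpleGraph (plus u v)} (hT : T.IsTree)
    (hdeg : ∀ p, (T.neighborSet p).ncard ≤ 3) : 3 + ‖u - v‖ ≤ treeLength (plus u v) T := by
  classical
  have ho : ph 0 u v (0, 0) ∈ plus u v := mem_plus.2 ⟨_, Or.inl rfl, rfl⟩
  obtain ⟨o, hoe⟩ : ∃ o : plus u v, o = ⟨_, ho⟩ := ⟨_, rfl⟩
  obtain ⟨F, hF⟩ : ∃ F : Finset (Sym2 (plus u v)),
      F = Finset.univ.filter (fun e => e ∈ T.edgeSet) := ⟨_, rfl⟩
  have hmF : ∀ e, e ∈ F ↔ e ∈ T.edgeSet := fun e => by
    rw [hF, Finset.mem_filter]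
    simp
  have hFc : F.card = 4 := by
    have h2 := (SimpleGraph.isTree_iff_connected_and_card.1 hT).2
    have hcard : Nat.card T.edgeSet = F.card := by
      rw [Nat.card_eq_fintype_card, ← Set.toFinset_card, hF]
      congr 1
      ext e
      simp
    rw [hcard, Nat.card_eq_fintype_card (α := plus u v), Fintype.card_coe,
      plus_card hu hv h0 h1] at h2
    omega
  obtain ⟨e0, he0, he0o⟩ : ∃ e0 ∈ F, o ∉ e0 := by
    by_contra hcon
    push Not at hcon
    have h3 : F ⊆ (T.neighborSet o).toFinset.image fun q => s(o, q) := by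
      intro e he
      have h4 := hcon e he
      rw [hmF] at he
      obtain ⟨q, rfl⟩ := Sym2.mem_iff_exists.1 h4
      rw [SimpleGraph.mem_edgeSet] at he
      exact Finset.mem_image.2 ⟨q, by rw [Set.mem_toFinset]; exact he, rfl⟩
    have h4 := (Finset.card_le_card h3).trans Finset.card_image_le
    have h5 := hdeg o
    rw [Set.ncard_eq_toFinset_card'] at h5
    omega
  have hlen : ∀ e ∈ F, 1 ≤ len (plus u v) e := by
    intro e he
    rw [hmF] at he
    induction e using Sym2.ind with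
    | _ p q =>
      rw [SimpleGraph.mem_edgeSet] at he
      refine class_ge (a := 0) hu hv h0 h1 (fun p hp => ?_) p p.2 q q.2 fun h => he.ne (Subtype.ext h)
      obtain ⟨x, -, hx⟩ := mem_plus.1 hp
      exact ⟨x, hx⟩
  have hlen0 : ‖u - v‖ ≤ len (plus u v) e0 := by
    rw [hmF] at he0
    induction e0 using Sym2.ind with
    | _ p q =>
      rw [SimpleGraph.mem_edgeSet] at he0
      rw [Sym2.mem_iff] at he0o
      push Not at he0o
      obtain ⟨p, hp⟩ := p
      obtain ⟨q, hq⟩ := q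
      obtain ⟨x, hx, rfl⟩ := mem_plus.1 hp
      obtain ⟨y, hy, rfl⟩ := mem_plus.1 hq
      have hx' : x ∈ U4 := by
        rcases hx with rfl | hx
        · exact absurd hoe he0o.1
        · exact hx
      have hy' : y ∈ U4 := by
        rcases hy with rfl | hy
        · exact absurd hoe he0o.2
        · exact hy
      refine four_ge hu hv h0 hx' hy' fun h => he0.ne ?_
      subst h
      rfl
  have h6 : treeLength (plus u v) T = ∑ e ∈ F, len (plus u v) e := by
    rw [hF]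
    unfold treeLength
    refine Finset.sum_congr ?_ fun _ _ => rfl
    ext e
    simp
  rw [h6, ← Finset.add_sum_erase F _ he0]
  have h7 : ((F.erase e0).card : ℝ) ≤ ∑ e ∈ F.erase e0, len (plus u v) e := by
    have h8 := Finset.sum_le_sum fun e he => hlen e (Finset.mem_of_mem_erase (a := e0) he)
    rw [Finset.sum_const, nsmul_eq_mul, mul_one] at h8
    exact h8
  rw [Finset.card_erase_of_mem he0, hFc] at h7
  norm_num at h7
  linarith

end

/-- Three unit vectors of the plane with pairwise inner products at most 1/2 in absolute value. -/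
theorem gram {u v w : E} (hu : ‖u‖ = 1) (hv : ‖v‖ = 1) (hw : ‖w‖ = 1)
    (h0 : 0 ≤ inner ℝ u v) (h1 : inner ℝ u v ≤ 1 / 2) (h2 : |inner ℝ w u| ≤ 1 / 2)
    (h3 : |inner ℝ w v| ≤ 1 / 2) : w = u - v ∨ w = v - u := by
  have e1 : inner ℝ u v = u 0 * v 0 + u 1 * v 1 := by
    simp [PiLp.inner_apply, Fin.sum_univ_two, mul_comm]
  have e2 : inner ℝ w u = w 0 * u 0 + w 1 * u 1 := by
    simp [PiLp.inner_apply, Fin.sum_univ_two, mul_comm]
  have e3 : inner ℝ w v = w 0 * v 0 + w 1 * v 1 := by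
    simp [PiLp.inner_apply, Fin.sum_univ_two, mul_comm]
  have n1 : u 0 ^ 2 + u 1 ^ 2 = 1 := by
    have := EuclideanSpace.real_norm_sq_eq u
    rw [hu, Fin.sum_univ_two] at this
    linarith
  have n2 : v 0 ^ 2 + v 1 ^ 2 = 1 := by
    have := EuclideanSpace.real_norm_sq_eq v
    rw [hv, Fin.sum_univ_two] at this
    linarith
  have n3 : w 0 ^ 2 + w 1 ^ 2 = 1 := by
    have := EuclideanSpace.real_norm_sq_eq w
    rw [hw, Fin.sum_univ_two] at this
    linarith
  obtain ⟨x, hx⟩ : ∃ x, x = inner ℝ u v := ⟨_, rfl⟩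
  obtain ⟨y, hy⟩ : ∃ y, y = inner ℝ w u := ⟨_, rfl⟩
  obtain ⟨z, hz⟩ : ∃ z, z = inner ℝ w v := ⟨_, rfl⟩
  have hdet : 1 + 2 * x * y * z - x ^ 2 - y ^ 2 - z ^ 2 = 0 := by
    have key : (u 0 ^ 2 + u 1 ^ 2) * (v 0 ^ 2 + v 1 ^ 2) * (w 0 ^ 2 + w 1 ^ 2) +
        2 * (u 0 * v 0 + u 1 * v 1) * (w 0 * u 0 + w 1 * u 1) * (w 0 * v 0 + w 1 * v 1) -
        (w 0 ^ 2 + w 1 ^ 2) * (u 0 * v 0 + u 1 * v 1) ^ 2 -
        (v 0 ^ 2 + v 1 ^ 2) * (w 0 * u 0 + w 1 * u 1) ^ 2 -
        (u 0 ^ 2 + u 1 ^ 2) * (w 0 * v 0 + w 1 * v 1) ^ 2 = 0 := by ring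
    rw [n1, n2, n3, ← e1, ← e2, ← e3, ← hx, ← hy, ← hz] at key
    linarith
  rw [← hx] at h0 h1
  rw [← hy] at h2
  rw [← hz] at h3
  have y2 : y ^ 2 ≤ 1 / 4 := by
    rw [← sq_abs]
    nlinarith [abs_nonneg y]
  have z2 : z ^ 2 ≤ 1 / 4 := by
    rw [← sq_abs]
    nlinarith [abs_nonneg z]
  have hyz : -(1 / 4) ≤ y * z := by nlinarith [sq_nonneg (y + z)]
  have x2 : x ^ 2 ≤ 1 / 4 := by nlinarith
  have hxyz : -(1 / 8) ≤ x * (y * z) := by nlinarith
  have hx2 : x ^ 2 = 1 / 4 := by nlinarith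
  have hy2 : y ^ 2 = 1 / 4 := by nlinarith
  have hz2 : z ^ 2 = 1 / 4 := by nlinarith
  have hx1 : x = 1 / 2 := by nlinarith
  have hyz2 : y * z = -(1 / 4) := by
    rw [hx1] at hdet
    nlinarith
  have hc : (y = 1 / 2 ∧ z = -(1 / 2)) ∨ (y = -(1 / 2) ∧ z = 1 / 2) := by
    have h5 : (y - 1 / 2) * (y + 1 / 2) = 0 := by nlinarith
    rcases mul_eq_zero.1 h5 with h6 | h6
    · left
      have hy1 : y = 1 / 2 := by linarith
      rw [hy1] at hyz2
      exact ⟨hy1, by linarith⟩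
    · right
      have hy1 : y = -(1 / 2) := by linarith
      rw [hy1] at hyz2
      exact ⟨hy1, by linarith⟩
  rcases hc with ⟨c1, c2⟩ | ⟨c1, c2⟩
  · left
    have h5 : ‖w - (u - v)‖ ^ 2 = 0 := by
      rw [norm_sub_sq_real, inner_sub_right, norm_sub_sq_real, hu, hv, hw, ← hx, ← hy, ← hz, hx1,
        c1, c2]
      norm_num
    exact sub_eq_zero.1 (norm_eq_zero.1 (pow_eq_zero_iff two_ne_zero |>.1 h5))
  · right
    have h5 : ‖w - (v - u)‖ ^ 2 = 0 := by
      rw [norm_sub_sq_real, inner_sub_right, norm_sub_sq_real, hu, hv, hw, real_inner_comm u v,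
        ← hx, ← hy, ← hz, hx1, c1, c2]
      norm_num
    exact sub_eq_zero.1 (norm_eq_zero.1 (pow_eq_zero_iff two_ne_zero |>.1 h5))

end MP_675adf_co_LT
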