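import Pool.Agent.Lib.MP_675adf_co_LT.Base
import Pool.Agent.Lib.MP_675adf_co_LT.Comp

/-!
# The induction for the square grid
-/

set_option autoImplicit false

namespace MP_675adf_co_LT

/-- The four unit steps. -/
def U4 : Finset (ℤ × ℤ) := {(1, 0), (0, 1), (-1, 0), (0, -1)}

/-- The two diagonal steps. -/
def D2 : Finset (ℤ × ℤ) := {(1, -1), (-1, 1)}

/-- The directions of the neighbours of `v` in `C`. -/
def nb (U C : Finset (ℤ × ℤ)) (v : ℤ × ℤ) : Finset (ℤ × ℤ) := U.filter fun d => v + d ∈ C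

theorem mem_nb {U C : Finset (ℤ × ℤ)} {v d : ℤ × ℤ} : d ∈ nb U C v ↔ d ∈ U ∧ v + d ∈ C :=
  Finset.mem_filter

theorem U4_symm : ∀ d ∈ U4, -d ∈ U4 := by decide

theorem U4_zero : ∀ d ∈ U4, d ≠ 0 := by decide

theorem U4_card : U4.card = 4 := by decide

theorem U4_sw : ∀ a ∈ U4, a.swap ∈ U4 ∧ a.swap - a ∈ D2 ∧ a.swap ≠ -a ∧ -a.swap ≠ -a ∧
    a.swap ≠ a ∧ -a.swap ≠ a ∧ a.swap ≠ -a.swap ∧ a ≠ -a ∧ a + a.swap ≠ 0 ∧
    a + -a.swap ≠ 0 := by decide

theorem U4_all : ∀ a ∈ U4, ∀ d ∈ U4, d = a ∨ d = -a ∨ d = a.swap ∨ d = -a.swap := by decide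

theorem nb_le3 {C : Finset (ℤ × ℤ)} {v d : ℤ × ℤ} (hd : d ∈ U4) (h : v + d ∉ C) :
    (nb U4 C v).card ≤ 3 := by
  have h1 : nb U4 C v ⊆ U4.erase d := by
    intro x hx
    have h2 := mem_nb.1 hx
    exact Finset.mem_erase.2 ⟨fun h3 => h (h3 ▸ h2.2), h2.1⟩
  refine (Finset.card_le_card h1).trans ?_
  rw [Finset.card_erase_of_mem hd, U4_card]

theorem sq_main : ∀ n : ℕ, ∀ C : Finset (ℤ × ℤ), C.card ≤ n → Con U4 C → ∀ v ∈ C,
    (nb U4 C v).card ≤ 3 → ∃ f, Good U4 D2 C v (min 2 (nb U4 C v).card) f ∧ 4 * f ≤ C.card ∧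
      ((nb U4 C v).card ≤ 2 → 4 * f + 1 ≤ C.card) := by
  intro n
  induction n with
  | zero =>
    intro C hC _ v hv _
    have : C.card = 0 := by omega
    rw [Finset.card_eq_zero] at this
    rw [this] at hv
    exact absurd hv (Finset.notMem_empty v)
  | succ n ih =>
    intro C hCn hC v hv hnb
    have hCpos : 1 ≤ C.card := Finset.card_pos.2 ⟨v, hv⟩
    obtain ⟨K, hK⟩ : ∃ K : ℤ × ℤ → Finset (ℤ × ℤ), K = fun d => cmp U4 (C.erase v) (v + d) :=
      ⟨_, rfl⟩
    have hKe : ∀ d, K d = cmp U4 (C.erase v) (v + d) := fun d => by rw [hK]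
    have hmem : ∀ d ∈ nb U4 C v, v + d ∈ C.erase v := fun d hd =>
      Finset.mem_erase.2 ⟨fun h => U4_zero d (mem_nb.1 hd).1 (by simpa using h),
        (mem_nb.1 hd).2⟩
    have hself : ∀ d ∈ nb U4 C v, v + d ∈ K d := fun d hd => by
      rw [hKe]
      exact self_mem (hmem d hd)
    have hnbk : ∀ k ∈ C.erase v, k - v ∈ U4 → k - v ∈ nb U4 C v := fun k hk h =>
      mem_nb.2 ⟨h, by rw [add_sub_cancel]; exact Finset.mem_of_mem_erase hk⟩
    have hdis : ∀ d ∈ nb U4 C v, ∀ d' ∈ nb U4 C v, v + d' ∉ K d → Disjoint (K d) (K d') := by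
      intro d _ d' hd' h
      rw [hKe] at h
      rw [hKe, hKe]
      exact cmp_disj U4_symm (hmem d' hd') h
    have hvK : ∀ d, Disjoint ({v} : Finset (ℤ × ℤ)) (K d) := fun d => by
      rw [hKe]
      exact v_disj
    have hKv : ∀ d, v ∉ K d := fun d h => Finset.disjoint_singleton_left.1 (hvK d) h
    have hKcard : ∀ d, (K d).card ≤ n := fun d => by
      rw [hKe]
      have := cmp_card_lt (U := U4) (k := v + d) hv
      omega
    have hKn : ∀ d ∈ nb U4 C v, (nb U4 (K d) (v + d)).card ≤ 3 := by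
      intro d hd
      refine nb_le3 (U4_symm d (mem_nb.1 hd).1) ?_
      rw [add_neg_cancel_right]
      exact hKv d
    have hIH : ∀ d ∈ nb U4 C v, ∃ f, Good U4 D2 (K d) (v + d)
        (min 2 (nb U4 (K d) (v + d)).card) f ∧ 4 * f ≤ (K d).card ∧
        ((nb U4 (K d) (v + d)).card ≤ 2 → 4 * f + 1 ≤ (K d).card) := by
      intro d hd
      refine ih (K d) (hKcard d) ?_ (v + d) (hself d hd) (hKn d hd)
      rw [hKe]
      exact con_cmp U4_symm
    by_cases h0 : (nb U4 C v).card = 0
    · -- no neighbours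
      have hCv : C = {v} := by
        refine build0 hC hv fun k hk h => ?_
        have h1 := hnbk k hk h
        rw [Finset.card_eq_zero] at h0
        rw [h0] at h1
        exact absurd h1 (Finset.notMem_empty _)
      refine ⟨0, ?_, by omega, fun _ => by omega⟩
      have h1 : Good U4 D2 C v 0 0 := by
        rw [hCv]
        exact Good.single v
      exact h1.mono (Nat.zero_le _) le_rfl
    obtain ⟨d1, hd1⟩ := Finset.card_pos.1 (Nat.pos_of_ne_zero h0)
    obtain ⟨f1, g1, g1', g1''⟩ := hIH d1 hd1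
    by_cases h1 : ∀ d ∈ nb U4 C v, v + d ∈ K d1
    · -- one component
      have hCe : C = {v} ∪ K d1 := by
        rw [hKe]
        refine build1 hC hv fun k hk h => ?_
        have h2 := h1 _ (hnbk k hk h)
        rw [hKe, add_sub_cancel] at h2
        exact h2
      have hcard : C.card = 1 + (K d1).card := by
        conv_lhs => rw [hCe]
        rw [Finset.card_union_of_disjoint (hvK d1), Finset.card_singleton]
      refine ⟨f1, ?_, by omega, fun _ => by omega⟩
      have h2 := (Good.single (U := U4) (D := D2) v).attach (e := 0) g1 (hvK d1) (by omega)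
        (Or.inl (by rw [add_sub_cancel_left]; exact (mem_nb.1 hd1).1))
      rw [← hCe] at h2
      exact h2.mono (by omega) (by omega)
    push Not at h1
    obtain ⟨d2, hd2, hd2K⟩ := h1
    obtain ⟨f2, g2, g2', g2''⟩ := hIH d2 hd2
    have hd12 : d1 ≠ d2 := fun h => hd2K (h ▸ hself d1 hd1)
    have hD12 := hdis d1 hd1 d2 hd2 hd2K
    by_cases h2 : ∀ d ∈ nb U4 C v, v + d ∈ K d1 ∨ v + d ∈ K d2
    · -- two components
      have hCe : C = {v} ∪ K d1 ∪ K d2 := by
        rw [hKe, hKe]
        refine build2 hC hv fun k hk h => ?_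
        have h3 := h2 _ (hnbk k hk h)
        rw [hKe, hKe, add_sub_cancel] at h3
        exact h3
      have hdu : Disjoint ({v} ∪ K d1) (K d2) :=
        Finset.disjoint_union_left.2 ⟨hvK d2, hD12⟩
      have hcard : C.card = 1 + (K d1).card + (K d2).card := by
        conv_lhs => rw [hCe]
        rw [Finset.card_union_of_disjoint hdu, Finset.card_union_of_disjoint (hvK d1),
          Finset.card_singleton]
      have hc2 : 2 ≤ (nb U4 C v).card := by
        have h4 : ({d1, d2} : Finset (ℤ × ℤ)) ⊆ nb U4 C v := by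
          intro x hx
          rw [Finset.mem_insert, Finset.mem_singleton] at hx
          rcases hx with rfl | rfl
          · exact hd1
          · exact hd2
        have h5 := Finset.card_le_card h4
        rwa [Finset.card_pair hd12] at h5
      refine ⟨f1 + f2, ?_, by omega, fun _ => by omega⟩
      have h4 := (Good.single (U := U4) (D := D2) v).attach (e := 0) g1 (hvK d1) (by omega)
        (Or.inl (by rw [add_sub_cancel_left]; exact (mem_nb.1 hd1).1))
      have h5 := h4.attach (e := 0) g2 hdu (by omega)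
        (Or.inl (by rw [add_sub_cancel_left]; exact (mem_nb.1 hd2).1))
      rw [← hCe] at h5
      exact h5.mono (by omega) (by omega)
    push Not at h2
    obtain ⟨d3, hd3, hd31, hd32⟩ := h2
    -- three components
    have hd13 : d1 ≠ d3 := fun h => hd31 (h ▸ hself d1 hd1)
    have hd23 : d2 ≠ d3 := fun h => hd32 (h ▸ hself d2 hd2)
    have hsub : ({d1, d2, d3} : Finset (ℤ × ℤ)) ⊆ nb U4 C v := by
      intro x hx
      rw [Finset.mem_insert, Finset.mem_insert, Finset.mem_singleton] at hx
      rcases hx with rfl | rfl | rfl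
      · exact hd1
      · exact hd2
      · exact hd3
    have hc3 : ({d1, d2, d3} : Finset (ℤ × ℤ)).card = 3 :=
      Finset.card_eq_three.2 ⟨d1, d2, d3, hd12, hd13, hd23, rfl⟩
    have hnb3 : (nb U4 C v).card = 3 := le_antisymm hnb (hc3 ▸ Finset.card_le_card hsub)
    have hnbe : ({d1, d2, d3} : Finset (ℤ × ℤ)) = nb U4 C v :=
      Finset.eq_of_subset_of_card_le hsub (by omega)
    have hsym : ∀ d ∈ nb U4 C v, ∀ d' ∈ nb U4 C v, v + d' ∉ K d → v + d ∉ K d' := by
      intro d hd d' _ h h'
      rw [hKe] at h h'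
      exact h (cmp_symm U4_symm (hmem d' ‹_›) h')
    have hpw : ∀ x ∈ nb U4 C v, ∀ y ∈ nb U4 C v, x ≠ y → v + y ∉ K x := by
      intro x hx y hy hxy
      rw [← hnbe, Finset.mem_insert, Finset.mem_insert, Finset.mem_singleton] at hx hy
      rcases hx with rfl | rfl | rfl <;> rcases hy with rfl | rfl | rfl
      · exact absurd rfl hxy
      · exact hd2K
      · exact hd31
      · exact hsym _ hd1 _ hd2 hd2K
      · exact absurd rfl hxy
      · exact hd32
      · exact hsym _ hd1 _ hd3 hd31
      · exact hsym _ hd2 _ hd3 hd32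
      · exact absurd rfl hxy
    obtain ⟨d0, hd0, hd0n⟩ : ∃ d0 ∈ U4, d0 ∉ nb U4 C v := by
      by_contra h
      push Not at h
      have := Finset.card_le_card (fun x hx => h x hx : U4 ⊆ nb U4 C v)
      rw [U4_card] at this
      omega
    have hnbe' : nb U4 C v = U4.erase d0 := by
      refine Finset.eq_of_subset_of_card_le (fun x hx => Finset.mem_erase.2
        ⟨fun h => hd0n (h ▸ hx), (mem_nb.1 hx).1⟩) ?_
      rw [Finset.card_erase_of_mem hd0, U4_card]
      omega
    obtain ⟨a, ha⟩ : ∃ a, a = -d0 := ⟨_, rfl⟩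
    have haU : a ∈ U4 := ha ▸ U4_symm d0 hd0
    have hd0a : d0 = -a := by rw [ha, neg_neg]
    obtain ⟨s, hs⟩ : ∃ s, s = a.swap := ⟨_, rfl⟩
    obtain ⟨q1, q2, q3, q4, q5, q6, q7, q8, q9, q10⟩ := U4_sw a haU
    have hall := U4_all a haU
    rw [← hs] at q1 q2 q3 q4 q5 q6 q7 q9 q10 hall
    have hrU : -s ∈ U4 := U4_symm s q1
    have na : a ∈ nb U4 C v := by
      rw [hnbe', Finset.mem_erase, hd0a]
      exact ⟨q8, haU⟩
    have ns : s ∈ nb U4 C v := by
      rw [hnbe', Finset.mem_erase, hd0a]
      exact ⟨q3, q1⟩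
    have nr : -s ∈ nb U4 C v := by
      rw [hnbe', Finset.mem_erase, hd0a]
      exact ⟨q4, hrU⟩
    have corner : ∀ x ∈ nb U4 C v, ∀ y ∈ nb U4 C v, x ≠ y → x + y ≠ 0 → v + x + y ∉ C := by
      intro x hx y hy hxy hne h
      have h3 : v + x + y ∈ C.erase v := Finset.mem_erase.2
        ⟨fun h => hne (by rw [add_assoc] at h; simpa using h), h⟩
      have h4 : v + x + y ∈ K x := by
        rw [hKe]
        exact cmp_adj (self_mem (hmem x hx)) h3 (by
          rw [add_sub_cancel_left]
          exact (mem_nb.1 hy).1)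
      have h5 : v + y ∈ K x := by
        rw [hKe] at h4 ⊢
        refine cmp_adj h4 (hmem y hy) ?_
        have : v + y - (v + x + y) = -x := by abel
        rw [this]
        exact U4_symm x (mem_nb.1 hx).1
      exact hpw x hx y hy hxy h5
    have hKC : ∀ d, K d ⊆ C := fun d x hx => by
      rw [hKe] at hx
      exact Finset.mem_of_mem_erase (cmp_sub hx)
    have c1 : v + a + s ∉ C := corner a na s ns (Ne.symm q5) q9
    have c2 : v + a + -s ∉ C := corner a na (-s) nr (Ne.symm q6) q10
    have c3 : v + s + a ∉ C := by rwa [add_right_comm]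
    have c4 : v + -s + a ∉ C := by rwa [add_right_comm]
    have ka : (nb U4 (K a) (v + a)).card ≤ 1 := by
      have h3 : nb U4 (K a) (v + a) ⊆ {a} := by
        intro x hx
        obtain ⟨hx1, hx2⟩ := mem_nb.1 hx
        rw [Finset.mem_singleton]
        rcases hall x hx1 with h | h | h | h
        · exact h
        · rw [h, add_neg_cancel_right] at hx2
          exact absurd hx2 (hKv a)
        · rw [h] at hx2
          exact absurd (hKC a hx2) c1
        · rw [h] at hx2
          exact absurd (hKC a hx2) c2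
      exact (Finset.card_le_card h3).trans (by simp)
    have ks : (nb U4 (K s) (v + s)).card ≤ 2 := by
      have h3 : nb U4 (K s) (v + s) ⊆ {-a, s} := by
        intro x hx
        obtain ⟨hx1, hx2⟩ := mem_nb.1 hx
        rw [Finset.mem_insert, Finset.mem_singleton]
        rcases hall x hx1 with h | h | h | h
        · rw [h] at hx2
          exact absurd (hKC s hx2) c3
        · exact Or.inl h
        · exact Or.inr h
        · rw [h, add_neg_cancel_right] at hx2
          exact absurd hx2 (hKv s)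
      exact (Finset.card_le_card h3).trans Finset.card_le_two
    have kr : (nb U4 (K (-s)) (v + -s)).card ≤ 2 := by
      have h3 : nb U4 (K (-s)) (v + -s) ⊆ {-a, -s} := by
        intro x hx
        obtain ⟨hx1, hx2⟩ := mem_nb.1 hx
        rw [Finset.mem_insert, Finset.mem_singleton]
        rcases hall x hx1 with h | h | h | h
        · rw [h] at hx2
          exact absurd (hKC (-s) hx2) c4
        · exact Or.inl h
        · rw [h, neg_add_cancel_right] at hx2
          exact absurd hx2 (hKv (-s))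
        · exact Or.inr h
      exact (Finset.card_le_card h3).trans Finset.card_le_two
    obtain ⟨fa, ga, -, ga'⟩ := hIH a na
    obtain ⟨fs, gs, -, gs'⟩ := hIH s ns
    obtain ⟨fr, gr, -, gr'⟩ := hIH (-s) nr
    have ga2 := ga' (by omega)
    have gs2 := gs' ks
    have gr2 := gr' kr
    have Das := hdis a na s ns (hpw a na s ns (Ne.symm q5))
    have Dar := hdis a na (-s) nr (hpw a na (-s) nr (Ne.symm q6))
    have Dsr := hdis s ns (-s) nr (hpw s ns (-s) nr q7)
    have e1 := ga.attach (e := 1) gs Das (by omega) (Or.inr ⟨by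
      rw [add_sub_add_left_eq_sub]; exact q2, le_rfl⟩)
    have d1' : Disjoint ({v} : Finset (ℤ × ℤ)) (K a ∪ K s) :=
      Finset.disjoint_union_right.2 ⟨hvK a, hvK s⟩
    have e2 := (Good.single (U := U4) (D := D2) v).attach (e := 0) e1 d1' (by omega)
      (Or.inl (by rw [add_sub_cancel_left]; exact haU))
    have d2' : Disjoint ({v} ∪ (K a ∪ K s)) (K (-s)) :=
      Finset.disjoint_union_left.2 ⟨hvK _, Finset.disjoint_union_left.2 ⟨Dar, Dsr⟩⟩
    have e3 := e2.attach (e := 0) gr d2' (by omega)
      (Or.inl (by rw [add_sub_cancel_left]; exact hrU))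
    have hCe : C = {v} ∪ (K a ∪ K s) ∪ K (-s) := by
      rw [hKe, hKe, hKe]
      refine build3 hC hv fun k hk h => ?_
      have h3 := hnbk k hk h
      have h4 := hself _ h3
      rw [add_sub_cancel] at h4
      rcases hall _ h with h5 | h5 | h5 | h5
      · rw [h5, hKe] at h4
        exact Or.inl h4
      · rw [h5, hnbe', Finset.mem_erase, hd0a] at h3
        exact absurd rfl h3.1
      · rw [h5, hKe] at h4
        exact Or.inr (Or.inl h4)
      · rw [h5, hKe] at h4
        exact Or.inr (Or.inr h4)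
    have hcard : C.card = 1 + ((K a).card + (K s).card) + (K (-s)).card := by
      conv_lhs => rw [hCe]
      rw [Finset.card_union_of_disjoint d2', Finset.card_union_of_disjoint d1',
        Finset.card_union_of_disjoint Das, Finset.card_singleton]
    rw [← hCe] at e3
    refine ⟨fa + fs + fr + 1, e3.mono (by omega) (by omega), by omega, fun h => ?_⟩
    omega

end MP_675adf_co_LT
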